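import Pool.Agent.Helper2.SW.Defs

/-!
# Project SW: tournaments which code words

The tournament of a word of `n` pairs of bits `(x_m, y_m)` has the hub `0` and the path
`1, …, 4 n + 8` (the vertex `a + 1` is the position `a`). There is an arc from the position `a` to
the position `b` if `a + 2 ≤ b` or `a = b + 1`. The bits of the positions are
`1 1 1 0`, then `x_m, ¬ x_m, y_m, ¬ y_m` for `m < n`, then `1 0 0 0`; the hub has an arc to the
positions with the bit `1`, and the positions with the bit `0` have an arc to the hub.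
-/

set_option autoImplicit false

namespace Pool.Agent.Helper20.SW

open Pool.Agent.Helper2.SW

/-- Words of pairs of bits. -/
abbrev Wd : Type := List (Bool × Bool)

/-- The bits of the positions. -/
def bit (j : Wd) (a : ℕ) : Bool :=
  if a < 3 then true
  else if a = 3 then false
  else if a < 4 * j.length + 4 then
    if a % 4 = 0 then (j.getD ((a - 4) / 4) (false, false)).1
    else if a % 4 = 1 then !(j.getD ((a - 4) / 4) (false, false)).1
    else if a % 4 = 2 then (j.getD ((a - 4) / 4) (false, false)).2
    else !(j.getD ((a - 4) / 4) (false, false)).2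
  else if a = 4 * j.length + 4 then true
  else false

/-- The arcs of the tournament. -/
def warc (j : Wd) (v w : ℕ) : Prop :=
  (v = 0 ∧ 1 ≤ w ∧ bit j (w - 1) = true) ∨ (w = 0 ∧ 1 ≤ v ∧ bit j (v - 1) = false) ∨
    (1 ≤ v ∧ 1 ≤ w ∧ (v + 2 ≤ w ∨ v = w + 1))

/-- The number of the vertices. -/
def wsize (j : Wd) : ℕ := 4 * j.length + 9

theorem warc_pos {j : Wd} {v w : ℕ} (hv : 1 ≤ v) (hw : 1 ≤ w) :
    warc j v w ↔ v + 2 ≤ w ∨ v = w + 1 := by
  unfold warc
  omega

theorem warc_hub {j : Wd} {w : ℕ} (hw : 1 ≤ w) : warc j 0 w ↔ bit j (w - 1) = true := by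
  unfold warc
  constructor
  · rintro (h | h | h)
    · exact h.2.2
    · omega
    · omega
  · exact fun h => Or.inl ⟨rfl, hw, h⟩

theorem warc_hub' {j : Wd} {v : ℕ} (hv : 1 ≤ v) : warc j v 0 ↔ bit j (v - 1) = false := by
  unfold warc
  constructor
  · rintro (h | h | h)
    · omega
    · exact h.2.2
    · omega
  · exact fun h => Or.inr (Or.inl ⟨rfl, hv, h⟩)

theorem bit_start (j : Wd) {a : ℕ} (h : a < 3) : bit j a = true := by
  unfold bit
  rw [if_pos h]

theorem bit_three (j : Wd) : bit j 3 = false := by
  unfold bit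
  simp

theorem bit_end (j : Wd) {a : ℕ} (h : 4 * j.length + 5 ≤ a) : bit j a = false := by
  unfold bit
  rw [if_neg (by omega), if_neg (by omega), if_neg (by omega), if_neg (by omega)]

theorem bit_mid (j : Wd) : bit j (4 * j.length + 4) = true := by
  unfold bit
  rw [if_neg (by omega), if_neg (by omega), if_neg (by omega), if_pos rfl]

theorem bit_x (j : Wd) {m : ℕ} (h : m < j.length) :
    bit j (4 * m + 4) = (j.getD m (false, false)).1 := by
  unfold bit
  rw [if_neg (by omega), if_neg (by omega), if_pos (by omega), if_pos (by omega),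
    show (4 * m + 4 - 4) / 4 = m by omega]

theorem bit_x' (j : Wd) {m : ℕ} (h : m < j.length) :
    bit j (4 * m + 5) = !(j.getD m (false, false)).1 := by
  unfold bit
  rw [if_neg (by omega), if_neg (by omega), if_pos (by omega), if_neg (by omega),
    if_pos (by omega), show (4 * m + 5 - 4) / 4 = m by omega]

theorem bit_y (j : Wd) {m : ℕ} (h : m < j.length) :
    bit j (4 * m + 6) = (j.getD m (false, false)).2 := by
  unfold bit
  rw [if_neg (by omega), if_neg (by omega), if_pos (by omega), if_neg (by omega),
    if_neg (by omega), if_pos (by omega), show (4 * m + 6 - 4) / 4 = m by omega]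

theorem bit_y' (j : Wd) {m : ℕ} (h : m < j.length) :
    bit j (4 * m + 7) = !(j.getD m (false, false)).2 := by
  unfold bit
  rw [if_neg (by omega), if_neg (by omega), if_pos (by omega), if_neg (by omega),
    if_neg (by omega), if_neg (by omega), show (4 * m + 7 - 4) / 4 = m by omega]

theorem bit_ne (j : Wd) {a : ℕ} (h : a % 2 = 0) (h2 : 2 ≤ a) (h3 : a ≤ 4 * j.length + 4) :
    bit j (a + 1) = !(bit j a) := by
  by_cases h4 : a = 2
  · subst h4
    rw [bit_three, bit_start j (by omega)]
    rfl
  · by_cases h5 : a = 4 * j.length + 4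
    · subst h5
      rw [bit_mid, bit_end j (by omega)]
      rfl
    · rcases (show a % 4 = 0 ∨ a % 4 = 2 by omega) with h6 | h6
      · obtain ⟨m, rfl⟩ : ∃ m, a = 4 * m + 4 := ⟨a / 4 - 1, by omega⟩
        rw [bit_x j (by omega), bit_x' j (by omega)]
      · obtain ⟨m, rfl⟩ : ∃ m, a = 4 * m + 6 := ⟨a / 4 - 1, by omega⟩
        rw [bit_y j (by omega), bit_y' j (by omega)]

/-- Three equal consecutive bits are only at the ends. -/
theorem bit_triple (j : Wd) {s : ℕ} {b : Bool} (h0 : bit j s = b) (h1 : bit j (s + 1) = b)
    (h2 : bit j (s + 2) = b) : (s = 0 ∧ b = true) ∨ (4 * j.length + 5 ≤ s ∧ b = false) := by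
  by_cases hs : s = 0
  · subst hs
    left
    rw [bit_start j (by omega)] at h0
    exact ⟨rfl, h0.symm⟩
  · by_cases hs2 : 4 * j.length + 5 ≤ s
    · right
      rw [bit_end j hs2] at h0
      exact ⟨hs2, h0.symm⟩
    · exfalso
      rcases (show s % 2 = 0 ∨ s % 2 = 1 by omega) with h | h
      · have := bit_ne j h (by omega) (by omega)
        rw [h0, h1] at this
        cases b <;> simp at this
      · have := bit_ne j (a := s + 1) (by omega) (by omega) (by omega)
        rw [h1, show s + 1 + 1 = s + 2 by omega, h2] at this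
        cases b <;> simp at this

theorem eq_of_bit {i j : Wd} (hl : j.length = i.length)
    (h : ∀ a, a < 4 * j.length + 8 → bit j a = bit i a) : i = j := by
  refine List.ext_getElem hl.symm fun m h1 h2 => ?_
  have h3 := h (4 * m + 4) (by omega)
  have h4 := h (4 * m + 6) (by omega)
  rw [bit_x j h2, bit_x i h1] at h3
  rw [bit_y j h2, bit_y i h1] at h4
  rw [List.getD_eq_getElem _ _ h1, List.getD_eq_getElem _ _ h2] at h3 h4
  exact Prod.ext h3.symm h4.symm

theorem warc_asym {j : Wd} {v w : ℕ} (h : warc j v w) : ¬ warc j w v := by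
  intro h'
  by_cases hv : v = 0
  · subst hv
    by_cases hw : w = 0
    · subst hw
      unfold warc at h
      omega
    · rw [warc_hub (by omega)] at h
      rw [warc_hub' (by omega)] at h'
      rw [h] at h'
      exact Bool.noConfusion h'
  · by_cases hw : w = 0
    · subst hw
      rw [warc_hub (by omega)] at h'
      rw [warc_hub' (by omega)] at h
      rw [h] at h'
      exact Bool.noConfusion h'
    · rw [warc_pos (by omega) (by omega)] at h h'
      omega

theorem warc_irrefl (j : Wd) (v : ℕ) : ¬ warc j v v := fun h => warc_asym h h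

theorem warc_tot (j : Wd) {v w : ℕ} (h : v ≠ w) : warc j v w ∨ warc j w v := by
  by_cases hv : v = 0
  · subst hv
    rw [warc_hub (by omega), warc_hub' (by omega)]
    cases bit j (w - 1) <;> simp
  · by_cases hw : w = 0
    · subst hw
      rw [warc_hub (by omega), warc_hub' (by omega)]
      cases bit j (v - 1) <;> simp
    · rw [warc_pos (by omega) (by omega), warc_pos (by omega) (by omega)]
      omega

private theorem twin_aux (j : Wd) {v w : ℕ} (hw : w < wsize j) (h : v < w) :
    ∃ z, z < wsize j ∧ z ≠ v ∧ z ≠ w ∧ (warc j v z ↔ ¬ warc j w z) := by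
  unfold wsize at *
  by_cases hv : v = 0
  · subst hv
    by_cases h1 : w ≤ 4 * j.length + 6
    · refine ⟨4 * j.length + 8, by omega, by omega, by omega, ?_⟩
      rw [warc_hub (by omega), warc_pos (by omega) (by omega), bit_end j (by omega)]
      constructor
      · intro h
        exact Bool.noConfusion h
      · intro h
        omega
    · refine ⟨1, by omega, by omega, by omega, ?_⟩
      rw [warc_hub (by omega), warc_pos (by omega) (by omega), bit_start j (by omega)]
      constructor
      · intro _
        omega
      · intro _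
        rfl
  · have key : ∀ z, 1 ≤ z → z < 4 * j.length + 9 → z ≠ v → z ≠ w →
        ((v + 2 ≤ z ∨ v = z + 1) ↔ ¬ (w + 2 ≤ z ∨ w = z + 1)) →
        ∃ z, z < 4 * j.length + 9 ∧ z ≠ v ∧ z ≠ w ∧ (warc j v z ↔ ¬ warc j w z) := by
      intro z h1 h2 h3 h4 h5
      refine ⟨z, h2, h3, h4, ?_⟩
      rw [warc_pos (by omega) h1, warc_pos (by omega) h1]
      exact h5
    by_cases h1 : w = v + 1
    · by_cases h2 : v + 2 ≤ 4 * j.length + 8
      · exact key (v + 2) (by omega) (by omega) (by omega) (by omega) (by omega)
      · exact key (v - 1) (by omega) (by omega) (by omega) (by omega) (by omega)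
    · by_cases h2 : w = v + 2
      · exact key (v + 1) (by omega) (by omega) (by omega) (by omega) (by omega)
      · by_cases h3 : 2 ≤ v
        · exact key (v - 1) (by omega) (by omega) (by omega) (by omega) (by omega)
        · by_cases h4 : w = 4
          · exact key 5 (by omega) (by omega) (by omega) (by omega) (by omega)
          · exact key 3 (by omega) (by omega) (by omega) (by omega) (by omega)

theorem warc_twin (j : Wd) {v w : ℕ} (hv : v < wsize j) (hw : w < wsize j) (h : v ≠ w) :
    ∃ z, z < wsize j ∧ z ≠ v ∧ z ≠ w ∧ (warc j v z ↔ ¬ warc j w z) := by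
  rcases lt_or_gt_of_ne h with h1 | h1
  · exact twin_aux j hw h1
  · obtain ⟨z, a, b, c, d⟩ := twin_aux j hv h1
    exact ⟨z, a, c, b, by rw [d, not_not]⟩

/-- Between two positions there are at most two positions on cycles of length three. -/
private theorem light {j : Wd} {p q x y z : ℕ} (hp : 1 ≤ p) (hq : 1 ≤ q) (hx : 1 ≤ x) (hy : 1 ≤ y)
    (hz : 1 ≤ z) (hxy : x ≠ y) (hxz : x ≠ z) (hyz : y ≠ z) (h : warc j p q) (h1 : warc j q x)
    (h2 : warc j x p) (h3 : warc j q y) (h4 : warc j y p) (h5 : warc j q z) (h6 : warc j z p) :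
    False := by
  rw [warc_pos (by assumption) (by assumption)] at *
  omega

private theorem heavy {j : Wd} {p q x y z t : ℕ} (hp : 1 ≤ p) (hq : 1 ≤ q)
    (hxy : x ≠ y) (hxz : x ≠ z) (hyz : y ≠ z) (hxt : x ≠ t) (hyt : y ≠ t) (hzt : z ≠ t)
    (h : warc j p q) (h1 : warc j q x) (h2 : warc j x p) (h3 : warc j q y) (h4 : warc j y p)
    (h5 : warc j q z) (h6 : warc j z p) (h7 : warc j q t) (h8 : warc j t p) : False := by
  by_cases hx : x = 0
  · exact light hp hq (by omega) (by omega) (by omega) hyz hyt hzt h h3 h4 h5 h6 h7 h8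
  · by_cases hy : y = 0
    · exact light hp hq (by omega) (by omega) (by omega) hxz hxt hzt h h1 h2 h5 h6 h7 h8
    · by_cases hz : z = 0
      · exact light hp hq (by omega) (by omega) (by omega) hxy hxt hyt h h1 h2 h3 h4 h7 h8
      · exact light hp hq (by omega) (by omega) (by omega) hxy hxz hyz h h1 h2 h3 h4 h5 h6

theorem warc_anti (i j : Wd) (e : ℕ → ℕ) (he : ∀ v, v < wsize j → e v < wsize i)
    (h : ∀ v w, v < wsize j → w < wsize j → warc j v w → warc i (e v) (e w)) : i = j := by
  have inj : ∀ v w, v < wsize j → w < wsize j → v ≠ w → e v ≠ e w := by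
    intro v w hv hw hvw hcon
    rcases warc_tot j hvw with h1 | h1
    · exact warc_irrefl i _ (hcon ▸ h v w hv hw h1)
    · exact warc_irrefl i _ (hcon ▸ h w v hw hv h1)
  have hN : wsize j = 4 * j.length + 9 := rfl
  have hN' : wsize i = 4 * i.length + 9 := rfl
  set n := j.length with hn
  -- the hub
  have c1 : ∀ q, q = 1 ∨ q = 2 → e 0 = 0 ∨ e q = 0 := by
    intro q hq
    by_contra hcon
    push Not at hcon
    have b0 : ∀ z, z = 4 ∨ z = 4 * n + 6 ∨ z = 4 * n + 7 ∨ z = 4 * n + 8 → warc j z 0 := by
      intro z hz
      rw [warc_hub' (by omega)]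
      rcases hz with rfl | hz
      · exact bit_three j
      · exact bit_end j (by omega)
    have b1 : warc j 0 q := by
      rw [warc_hub (by omega)]
      exact bit_start j (by omega)
    have b2 : ∀ z, z = 4 ∨ z = 4 * n + 6 ∨ z = 4 * n + 7 ∨ z = 4 * n + 8 → warc j q z := by
      intro z hz
      rw [warc_pos (by omega) (by omega)]
      omega
    have a1 : (4 : ℕ) < wsize j := by omega
    have a2 : 4 * n + 6 < wsize j := by omega
    have a3 : 4 * n + 7 < wsize j := by omega
    have a4 : 4 * n + 8 < wsize j := by omega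
    have a0 : 0 < wsize j := by omega
    have aq : q < wsize j := by omega
    exact heavy (j := i) (p := e 0) (q := e q) (x := e 4) (y := e (4 * n + 6))
      (z := e (4 * n + 7)) (t := e (4 * n + 8)) (by omega) (by omega)
      (inj _ _ a1 a2 (by omega)) (inj _ _ a1 a3 (by omega)) (inj _ _ a2 a3 (by omega))
      (inj _ _ a1 a4 (by omega)) (inj _ _ a2 a4 (by omega)) (inj _ _ a3 a4 (by omega))
      (h _ _ a0 aq b1) (h _ _ aq a1 (b2 _ (by omega))) (h _ _ a1 a0 (b0 _ (by omega)))
      (h _ _ aq a2 (b2 _ (by omega))) (h _ _ a2 a0 (b0 _ (by omega)))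
      (h _ _ aq a3 (b2 _ (by omega))) (h _ _ a3 a0 (b0 _ (by omega)))
      (h _ _ aq a4 (b2 _ (by omega))) (h _ _ a4 a0 (b0 _ (by omega)))
  have e0 : e 0 = 0 := by
    have d1 := c1 1 (Or.inl rfl)
    have d2 := c1 2 (Or.inr rfl)
    have d3 := inj 1 2 (by omega) (by omega) (by omega)
    omega
  have ep : ∀ v, 1 ≤ v → v < wsize j → 1 ≤ e v := by
    intro v hv hv2
    have := inj v 0 hv2 (by omega) (by omega)
    omega
  -- the arcs between the images of the positions
  have ar : ∀ v w, 1 ≤ v → 1 ≤ w → v < wsize j → w < wsize j → (v + 2 ≤ w ∨ v = w + 1) →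
      (e v + 2 ≤ e w ∨ e v = e w + 1) := by
    intro v w h1 h2 h3 h4 h5
    have := h v w h3 h4 ((warc_pos h1 h2).2 h5)
    rwa [warc_pos (ep v h1 h3) (ep w h2 h4)] at this
  have four : ∀ v, 1 ≤ v → v + 3 < wsize j → e (v + 2) = e (v + 1) + 1 := by
    intro v h1 h2
    have g1 := ar v (v + 2) (by omega) (by omega) (by omega) (by omega) (by omega)
    have g2 := ar v (v + 3) (by omega) (by omega) (by omega) (by omega) (by omega)
    have g3 := ar (v + 1) (v + 3) (by omega) (by omega) (by omega) (by omega) (by omega)
    have g4 := ar (v + 1) v (by omega) (by omega) (by omega) (by omega) (by omega)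
    have g5 := ar (v + 2) (v + 1) (by omega) (by omega) (by omega) (by omega) (by omega)
    have g6 := ar (v + 3) (v + 2) (by omega) (by omega) (by omega) (by omega) (by omega)
    omega
  have step : ∀ v, 1 ≤ v → v + 1 < wsize j → e (v + 1) = e v + 1 := by
    intro v h1 h2
    by_cases hv1 : v = 1
    · subst hv1
      have f1 := four 1 (by omega) (by omega)
      have f2 := four 2 (by omega) (by omega)
      have g1 := ar 1 3 (by omega) (by omega) (by omega) (by omega) (by omega)
      have g2 := ar 3 2 (by omega) (by omega) (by omega) (by omega) (by omega)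
      have g3 := ar 2 1 (by omega) (by omega) (by omega) (by omega) (by omega)
      have g4 := ar 1 4 (by omega) (by omega) (by omega) (by omega) (by omega)
      norm_num at f1 f2 ⊢
      omega
    · by_cases hv2 : v + 2 < wsize j
      · have f1 := four (v - 1) (by omega) (by omega)
        rwa [show v - 1 + 2 = v + 1 by omega, show v - 1 + 1 = v by omega] at f1
      · have f1 := four (v - 2) (by omega) (by omega)
        have f2 := four (v - 3) (by omega) (by omega)
        rw [show v - 2 + 2 = v by omega, show v - 2 + 1 = v - 1 by omega] at f1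
        rw [show v - 3 + 2 = v - 1 by omega, show v - 3 + 1 = v - 2 by omega] at f2
        have g1 := ar (v - 1) (v + 1) (by omega) (by omega) (by omega) (by omega) (by omega)
        have g2 := ar (v + 1) v (by omega) (by omega) (by omega) (by omega) (by omega)
        have g4 := ar (v - 2) (v + 1) (by omega) (by omega) (by omega) (by omega) (by omega)
        omega
  obtain ⟨s, hs⟩ : ∃ s, e 1 = s + 1 := ⟨e 1 - 1, by have := ep 1 le_rfl (by omega); omega⟩
  have shift : ∀ a, a + 1 < wsize j → e (a + 1) = a + s + 1 := by
    intro a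
    induction a with
    | zero =>
      intro _
      rw [hs]
      omega
    | succ a ih =>
      intro ha
      rw [step (a + 1) (by omega) (by omega), ih (by omega)]
      omega
  have bits : ∀ a, a + 1 < wsize j → bit i (a + s) = bit j a := by
    intro a ha
    have h1 := shift a ha
    cases hb : bit j a with
    | true =>
      have h2 := h 0 (a + 1) (by omega) ha ((warc_hub (by omega)).2 hb)
      rw [e0, h1, warc_hub (by omega)] at h2
      exact h2
    | false =>
      have h2 := h (a + 1) 0 ha (by omega) ((warc_hub' (by omega)).2 hb)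
      rw [e0, h1, warc_hub' (by omega)] at h2
      exact h2
  have s0 : s = 0 := by
    have t0 := bits 0 (by omega)
    have t1 := bits 1 (by omega)
    have t2 := bits 2 (by omega)
    rw [bit_start j (by omega)] at t0 t1 t2
    rw [show 0 + s = s by omega] at t0
    rw [show 1 + s = s + 1 by omega] at t1
    rw [show 2 + s = s + 2 by omega] at t2
    rcases bit_triple i t0 t1 t2 with h1 | h1
    · exact h1.1
    · exact absurd h1.2 (by simp)
  subst s0
  have hlen : j.length = i.length := by
    have t0 := bits (4 * n + 5) (by omega)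
    have t1 := bits (4 * n + 6) (by omega)
    have t2 := bits (4 * n + 7) (by omega)
    rw [bit_end j (by omega)] at t0 t1 t2
    have hlt := he (4 * n + 8) (by omega)
    rw [shift (4 * n + 7) (by omega)] at hlt
    rcases bit_triple i (s := 4 * n + 5) (b := false) t0 t1 t2 with h1 | h1
    · exact absurd h1.2 (by simp)
    · omega
  exact eq_of_bit hlen fun a ha => (bits a (by omega)).symm

/-- The family of the tournaments which code words. -/
def TW : Pat Wd where
  N := wsize
  arc := warc
  three j := by unfold wsize; omega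
  asym _ _ _ h := warc_asym h
  tot j _ _ _ _ h := warc_tot j h
  first j := (warc_hub le_rfl).2 (bit_start j (by omega))
  nosrc j v hv := by
    by_cases h0 : v = 0
    · subst h0
      exact ⟨4, by unfold wsize; omega, (warc_hub' (by omega)).2 (bit_three j)⟩
    · by_cases h1 : v + 1 < wsize j
      · exact ⟨v + 1, h1, (warc_pos (by omega) (by omega)).2 (Or.inr rfl)⟩
      · refine ⟨v - 2, by omega, (warc_pos ?_ (by omega)).2 (Or.inl ?_)⟩
        · unfold wsize at h1
          omega
        · unfold wsize at h1
          omega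
  notwin j _ _ hv hw h := warc_twin j hv hw h
  anti := warc_anti

end Pool.Agent.Helper20.SW
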