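import Pool.Agent.Helper4.SW.Asm2

/-!
S-world: variant of the final assembly in which the statement (G) on spiders which are not bad is
only needed in contexts with at least two further vertices.
-/

set_option autoImplicit false

namespace Pool.Agent.Helper20.SW

open Pool.Agent.Helper6.HL hiding X
open Pool.Agent.Helper4.SW
open Finset Polynomial

variable {q : ℕ} (w : Fin q → ℝ) (y : ℝ)

/-- `F` is good in every context with at least `m` further vertices -/
def GoodFrom (m : ℕ) (F : B) : Prop := ∀ (A : ℝ) (Λ : ℝ[X]) (k : ℕ), m ≤ k → 0 ≤ A → NN Λ →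
  (∀ F' : B, F'.size < F.size → Pw w y (k + F'.size) ≤ Z w y A Λ F') →
  (∀ F' : B, Lt F' F → Pw w y (k + F'.size) ≤ Z w y A Λ F') →
  Pw w y (k + F.size) ≤ Z w y A Λ F

/-- (G) for contexts with at least two further vertices -/
def GoodG2 : Prop := ∀ J : List ℕ, 2 ≤ J.length → ¬ Bad w y J → GoodFrom w y 2 (.cons (R J) .nil)

variable {w y}

theorem goodFrom_of_good {F : B} (hF : Good w y F) (m : ℕ) : GoodFrom w y m F :=
  fun A Λ k _ => hF A Λ k

theorem good_of_goodFrom {F : B} (hF : GoodFrom w y 0 F) : Good w y F :=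
  fun A Λ k => hF A Λ k (Nat.zero_le k)

theorem GoodFrom.sim {m : ℕ} {F G : B} (h : Sim w y F G) (hF : GoodFrom w y m F) :
    GoodFrom w y m G := by
  intro A Λ k hk hA hΛ h1 h2
  rw [← h.1, ← h.Z_eq]
  refine hF A Λ k hk hA hΛ (fun F' hF' => h1 F' (h.1 ▸ hF')) fun F' hF' => h2 F' ?_
  obtain ⟨h3, h4⟩ := hF'
  exact ⟨h3.trans h.1, by rw [← h.2.1, ← h.2.2.1]; exact h4⟩

theorem GoodFrom.app_right (hw : ∀ i, 0 ≤ w i) (hy : 0 ≤ y) {F : B} (m m' : ℕ)
    (hF : GoodFrom w y m F) (G : B) (hm : m ≤ m' + G.size) : GoodFrom w y m' (F.app G) := by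
  intro A Λ k hk hA hΛ h1 h2
  obtain ⟨h3, h4⟩ := st_nonneg hw hy G
  have e : ∀ F' : B, k + (F'.app G).size = (k + G.size) + F'.size := fun F' => by
    rw [B.size_app]; omega
  rw [e, Z_app]
  refine hF _ _ (k + G.size) (by omega) (mul_nonneg hA h3) (hΛ.mul h4) (fun F' hF' => ?_)
    fun F' hF' => ?_
  · rw [← e, ← Z_app]
    exact h1 _ (by rw [B.size_app, B.size_app]; omega)
  · rw [← e, ← Z_app]
    exact h2 _ (hF'.app_right G)

theorem GoodFrom.cons_left (hw : ∀ i, 0 ≤ w i) (hy : 0 ≤ y) {c : B} (m m' : ℕ)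
    (hF : GoodFrom w y m c) (s : B) (hm : m ≤ m' + s.size + 1) : GoodFrom w y m' (.cons c s) := by
  intro A Λ k hk hA hΛ h1 h2
  obtain ⟨h3, h4⟩ := st_nonneg hw hy s
  have e : ∀ c' : B, k + (B.cons c' s).size = (k + s.size + 1) + c'.size := fun c' => by
    simp only [B.size]; omega
  rw [e, Z_cons]
  refine hF _ _ (k + s.size + 1) (by omega) (L_nonneg hw (hΛ.mul h4))
    ((NN.C (mul_nonneg (mul_nonneg hy hA) h3)).add ((NN.X.mul hΛ).mul h4))
    (fun c' hc' => ?_) fun c' hc' => ?_
  · rw [← e, ← Z_cons]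
    exact h1 _ (by simp only [B.size]; omega)
  · rw [← e, ← Z_cons]
    exact h2 _ (hc'.cons_left s)

theorem size_Sp_pos {Js : List (List ℕ)} (h : Js ≠ []) : 1 ≤ (Sp Js).size := by
  cases Js with
  | nil => exact absurd rfl h
  | cons K Ks => simp only [Sp, B.size]; omega

theorem size_R_pos' {J : List ℕ} (h : J ≠ []) : 1 ≤ (R J).size := by
  cases J with
  | nil => exact absurd rfl h
  | cons a J => simp only [R, B.size]; omega

theorem G2_good3 (h : Hyp w y) (hT : NotBadTwo w y) (hG : GoodG2 w y) (hC : GoodC w y)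
    (hD1 : GoodD1 w y) (hD2 : GoodD2 w y) (g : B) (hg : G2 w y g) : Good w y (.cons g .nil) := by
  by_cases hex : ∃ (Js : List (List ℕ)) (J : List ℕ), (∀ K ∈ Js, 2 ≤ K.length) ∧
      Sim w y g ((Sp Js).app (R J)) ∧ ∃ K ∈ Js, ¬ Bad w y K
  · obtain ⟨Js, J, h1, hsim, K, hK, hKb⟩ := hex
    obtain ⟨Js1, Js2, rfl⟩ := List.append_of_mem hK
    have hK2 : 2 ≤ K.length := h1 K hK
    set rest := (Sp (Js1 ++ Js2)).app (R J) with hrest
    have e1 : Sim w y (B.app (.cons (R K) .nil) rest) ((Sp (Js1 ++ K :: Js2)).app (R J)) := by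
      rw [hrest, Sp_append, Sp_append, ← app_assoc]
      refine Sim.app ?_ (Sim.refl _)
      have a1 : Sp (K :: Js2) = B.app (.cons (R K) .nil) (Sp Js2) := rfl
      rw [a1, ← app_assoc, ← app_assoc]
      exact Sim.app (Sim.app_comm _ _) (Sim.refl _)
    have e2 : Sim w y (B.app (.cons (R K) .nil) rest) g := e1.trans hsim.symm
    by_cases hr : 1 ≤ rest.size
    · refine good_of_goodFrom (GoodFrom.cons_left h.nn h.hy.le 1 0 ?_ .nil (by simp [B.size]))
      refine GoodFrom.sim e2 ?_
      exact GoodFrom.app_right h.nn h.hy.le 2 1 (hG K hK2 hKb) rest (by omega)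
    · have hJ : J = [] := by
        by_contra hc
        have := size_R_pos' hc
        rw [hrest, B.size_app] at hr
        omega
      have hJs : Js1 ++ Js2 = [] := by
        by_contra hc
        have := size_Sp_pos hc
        rw [hrest, B.size_app] at hr
        omega
      have hrn : rest = .nil := by
        rw [hrest, hJ, hJs]
        rfl
      rw [hrn, app_nil] at e2
      refine Good.sim (Sim.cons e2 (Sim.refl _)) ?_
      match K, hK2 with
      | a :: b :: J', _ => exact (caseA h a b J').good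
  · obtain ⟨Js, J, h0, h1, hsim⟩ := hg
    have hbad : ∀ K ∈ Js, 3 ≤ K.length ∧ Bad w y K := fun K hK => by
      have hb : Bad w y K := by
        by_contra hc
        exact hex ⟨Js, J, h1, hsim, K, hK, hc⟩
      refine ⟨?_, hb⟩
      have hl := h1 K hK
      by_contra hc
      obtain ⟨a, b, rfl⟩ : ∃ a b, K = [a, b] := by
        match K, hl, hc with
        | [a, b], _, _ => exact ⟨a, b, rfl⟩
        | a :: b :: c :: K, _, hc => exact absurd (by simp) hc
      exact hT a b hb
    match J with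
    | [] =>
      refine Good.sim (Sim.cons hsim.symm (Sim.refl _)) ?_
      rw [R, app_nil]
      exact hC Js h0 hbad
    | [c] => exact Good.sim (Sim.cons hsim.symm (Sim.refl _)) (hD1 c Js h0 hbad)
    | c :: d :: J' =>
      cases Js with
      | nil => exact absurd rfl h0
      | cons K Ks =>
        obtain ⟨h2, h3⟩ := hbad K (by simp)
        refine Good.cons_left h.nn h.hy.le (Good.sim hsim.symm ?_) .nil
        have e1 : Sim w y (B.app (.cons (R K) (R [c, d])) (B.app (Sp Ks) (R J')))
            (B.app (Sp (K :: Ks)) (R (c :: d :: J'))) := by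
          have a1 : B.app (.cons (R K) (R [c, d])) (B.app (Sp Ks) (R J')) =
              .cons (R K) (B.app (B.app (R [c, d]) (Sp Ks)) (R J')) := by
            rw [app_assoc]; rfl
          have a2 : B.app (Sp (K :: Ks)) (R (c :: d :: J')) =
              .cons (R K) (B.app (B.app (Sp Ks) (R [c, d])) (R J')) := by
            rw [app_assoc]; rfl
          rw [a1, a2]
          exact Sim.cons (Sim.refl _) (Sim.app (Sim.app_comm _ _) (Sim.refl _))
        exact Good.sim e1 ((hD2 c d K h2 h3).app_right h.nn h.hy.le _)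

end Pool.Agent.Helper20.SW
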