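import Pool.Agent.Helper20.SW.Tour

/-!
# Project SW: copies of `T_j` in a blow up of `T_i`
-/

set_option autoImplicit false

namespace Pool.Agent.Helper20.SW

/-- A copy of `T_j` in a blow up of a subdigraph `E` of `T_i` by transitive blocks (the block of
`x` is `π x`, and the root, `π x = none`, is below everything) gives a copy of `T_j` in `E`. -/
theorem copy_blowup {α : Type*} {i j : ℕ} {D : α → α → Prop} (π : α → Option ℕ)
    (E : ℕ → ℕ → Prop) (hE : ∀ v w, E v w → tarc i v w) (irr : ∀ x, ¬ D x x)
    (tr : ∀ x y z, π x = π y → π y = π z → D x y → D y z → D x z)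
    (root : ∀ x y, D x y → π y = none → π x = none)
    (cross : ∀ x y v w, D x y → π x = some v → π y = some w → v ≠ w → E v w)
    (h : Copy j D) : Copy j E := by
  classical
  obtain ⟨f, hf⟩ := h
  -- there is no root vertex
  have h0 : (0 : ℕ) < tsize j := by unfold tsize; omega
  have c01 : tarc j 0 1 := by
    unfold tarc tsize tblk
    split_ifs <;> omega
  have c12 : tarc j 1 2 := by
    unfold tarc tsize tblk
    split_ifs <;> omega
  have c20 : tarc j 2 0 := by
    unfold tarc tsize tblk
    split_ifs <;> omega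
  have hne : ∀ x, x < tsize j → π (f x) ≠ none := by
    intro a ha hcon
    have key := tarc_strong {x | π (f x) = none} (a := a) hcon ha
      (fun x y hxy hy => root _ _ (hf _ _ hxy) hy)
    have k0 : π (f 0) = none := key 0 c01.1
    have k1 : π (f 1) = none := key 1 c12.1
    have k2 : π (f 2) = none := key 2 c20.1
    have e1 : π (f 0) = π (f 1) := by rw [k0, k1]
    have e2 : π (f 1) = π (f 2) := by rw [k1, k2]
    have e3 : π (f 2) = π (f 0) := by rw [k2, k0]
    exact irr _ (tr _ _ _ (e1.trans e2) e3 (tr _ _ _ e1 e2 (hf _ _ c01) (hf _ _ c12)) (hf _ _ c20))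
  -- two vertices are in different blocks
  have between : ∀ n a b, tarc j a b → π (f a) = π (f b) →
      ((Finset.range (tsize j)).filter fun z => tarc j a z ∧ tarc j z b ∧
        π (f z) = π (f a)).card = n → False := by
    intro n
    induction n using Nat.strong_induction_on with
    | _ n ih =>
      intro a b hab hπ hn
      obtain ⟨z, hz⟩ := tarc_twin hab
      obtain ⟨v, hv⟩ := Option.ne_none_iff_exists'.1 (hne a hab.1)
      by_cases hzb : π (f z) = π (f a)
      · rcases hz with ⟨h1, h2⟩ | ⟨h1, h2⟩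
        · refine ih _ ?_ a z h1 hzb.symm rfl
          rw [← hn]
          apply Finset.card_lt_card
          rw [Finset.ssubset_iff_of_subset]
          · refine ⟨z, ?_, ?_⟩
            · rw [Finset.mem_filter, Finset.mem_range]
              exact ⟨h1.2.1, h1, h2, hzb⟩
            · rw [Finset.mem_filter]
              exact fun h => tarc_irrefl _ _ h.2.2.1
          · intro y hy
            rw [Finset.mem_filter, Finset.mem_range] at hy ⊢
            obtain ⟨hy1, hy2, hy3, hy4⟩ := hy
            refine ⟨hy1, hy2, ?_, hy4⟩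
            have d1 : D (f y) (f b) :=
              tr _ _ _ (hy4.trans hzb.symm) (hzb.trans hπ) (hf _ _ hy3) (hf _ _ h2)
            have hyb : y ≠ b := by
              rintro rfl
              exact irr _ d1
            rcases tarc_total hy1 hab.2.1 hyb with h3 | h3
            · exact h3
            · exact absurd (tr _ _ _ (hy4.trans hπ) (hπ.symm.trans hy4.symm) d1 (hf _ _ h3))
                (irr _)
        · exact irr _ (tr _ _ _ (hπ.trans (hπ.symm.trans hzb.symm)) (hzb)
            (tr _ _ _ hπ (hπ.symm.trans hzb.symm) (hf _ _ hab) (hf _ _ h2)) (hf _ _ h1))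
      · have hzlt : z < tsize j := by
          rcases hz with ⟨h1, h2⟩ | ⟨h1, h2⟩
          · exact h2.1
          · exact h1.1
        obtain ⟨w, hw⟩ := Option.ne_none_iff_exists'.1 (hne z hzlt)
        have hvw : v ≠ w := by
          rintro rfl
          exact hzb (hw.trans hv.symm)
        have hvb : π (f b) = some v := hπ.symm.trans hv
        rcases hz with ⟨h1, h2⟩ | ⟨h1, h2⟩
        · exact tarc_asymm (hE _ _ (cross _ _ _ _ (hf _ _ h1) hv hw hvw))
            (hE _ _ (cross _ _ _ _ (hf _ _ h2) hw hvb hvw.symm))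
        · exact tarc_asymm (hE _ _ (cross _ _ _ _ (hf _ _ h2) hvb hw hvw))
            (hE _ _ (cross _ _ _ _ (hf _ _ h1) hw hv hvw.symm))
  refine ⟨fun x => (π (f x)).getD 0, fun x y hxy => ?_⟩
  obtain ⟨v, hv⟩ := Option.ne_none_iff_exists'.1 (hne x hxy.1)
  obtain ⟨w, hw⟩ := Option.ne_none_iff_exists'.1 (hne y hxy.2.1)
  have hvw : v ≠ w := by
    rintro rfl
    exact between _ x y hxy (hv.trans hw.symm) rfl
  simp only [hv, hw, Option.getD_some]
  exact cross _ _ _ _ (hf _ _ hxy) hv hw hvw

/-- `T_j` has a copy in `T_i` only for `j = i`. -/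
theorem eq_of_copy {i j : ℕ} {E : ℕ → ℕ → Prop} (hE : ∀ v w, E v w → tarc i v w)
    (h : Copy j E) : j = i := by
  obtain ⟨f, hf⟩ := h
  exact tarc_antichain f fun x y hxy => hE _ _ (hf _ _ hxy)

/-- `T_i` has no copy in `T_i` without the arc from `v₀` to `w₀`. -/
theorem not_copy_of_missing {i j : ℕ} {E : ℕ → ℕ → Prop} {v₀ w₀ : ℕ} (h₀ : tarc i v₀ w₀)
    (hE : ∀ v w, E v w → tarc i v w ∧ ¬ (v = v₀ ∧ w = w₀)) : ¬ Copy j E := by
  intro h
  obtain rfl := eq_of_copy (fun v w hvw => (hE v w hvw).1) h
  obtain ⟨f, hf⟩ := h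
  have irr : ∀ x, ¬ E x x := fun x hx => tarc_irrefl _ _ (hE _ _ hx).1
  have inj : ∀ x y, x < tsize j → y < tsize j → f x = f y → x = y := by
    intro x y hx hy hxy
    by_contra hne
    rcases tarc_total hx hy hne with h1 | h1
    · exact irr _ (hxy ▸ hf _ _ h1)
    · exact irr _ (hxy ▸ hf _ _ h1)
  have hlt : ∀ x, x < tsize j → f x < tsize j := by
    intro x hx
    by_cases h : x = 0
    · subst h
      refine (hE _ _ (hf 0 1 ?_)).1.1
      unfold tarc tsize tblk
      split_ifs <;> omega
    · rcases tarc_total hx (show 0 < tsize j by unfold tsize; omega) h with h1 | h1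
      · exact (hE _ _ (hf _ _ h1)).1.1
      · exact (hE _ _ (hf _ _ h1)).1.2.1
  have himg : (Finset.range (tsize j)).image f = Finset.range (tsize j) := by
    apply Finset.eq_of_subset_of_card_le
    · intro x hx
      obtain ⟨y, hy, rfl⟩ := Finset.mem_image.1 hx
      exact Finset.mem_range.2 (hlt y (Finset.mem_range.1 hy))
    · rw [Finset.card_image_of_injOn]
      intro x hx y hy hxy
      exact inj x y (Finset.mem_range.1 hx) (Finset.mem_range.1 hy) hxy
  have hv : v₀ ∈ (Finset.range (tsize j)).image f := by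
    rw [himg]
    exact Finset.mem_range.2 h₀.1
  have hw : w₀ ∈ (Finset.range (tsize j)).image f := by
    rw [himg]
    exact Finset.mem_range.2 h₀.2.1
  obtain ⟨a, ha, rfl⟩ := Finset.mem_image.1 hv
  obtain ⟨b, hb, rfl⟩ := Finset.mem_image.1 hw
  have hab : a ≠ b := by
    rintro rfl
    exact tarc_irrefl _ _ h₀
  rcases tarc_total (Finset.mem_range.1 ha) (Finset.mem_range.1 hb) hab with h1 | h1
  · exact (hE _ _ (hf _ _ h1)).2 ⟨rfl, rfl⟩
  · exact tarc_asymm h₀ (hE _ _ (hf _ _ h1)).1

end Pool.Agent.Helper20.SW
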