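import Pool.Agent.Helper20.SW.Two

/-!
The deletion certificate for two legs.
-/

set_option autoImplicit false

namespace Pool.Agent.Helper20.SW

open Pool.Agent.Helper6.HL hiding X
open Finset Polynomial
open Pool.Agent.Helper4.SW

variable {q : ℕ} {w : Fin q → ℝ} {y : ℝ}

theorem E_pos (h : Hyp w y) {f : Fin q → ℝ} (hf : ∀ i, 0 < f i) : 0 < E w f := by
  have : Nonempty (Fin q) := ⟨⟨0, lt_of_lt_of_le two_pos h.two⟩⟩
  obtain ⟨i⟩ := this
  exact lt_of_lt_of_le (mul_pos (h.pos i) (hf i)) (le_E h.nn (fun i => (hf i).le) i)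

theorem w_lt_one (h : Hyp w y) (i : Fin q) : w i < 1 := by
  have := ch_pos h 1 i
  rw [show (1 + 1 : ℕ) = 2 by rfl, ch_two h] at this
  linarith

theorem Pw_pos (h : Hyp w y) (k : ℕ) : 0 < Pw w y k := by
  rw [Pw_eq]
  have := l_pos h k
  have := l_pos h (k + 1)
  have := h.hy
  positivity

/-- the value with nothing attached -/
theorem Z_nil (A : ℝ) (Λ : ℝ[X]) : Z w y A Λ .nil = y * A + L w Λ := by
  simp [Z, st]

/-- the value of a path of `n` vertices -/
theorem Z_path (A : ℝ) (Λ : ℝ[X]) (n : ℕ) : Z w y A Λ (B.path n) =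
    l w y n * Z w y A Λ .nil - E w (fun i => hat w Λ i * ((w i - y) * ch w y n i)) := by
  have e1 : Z w y A Λ (B.path n) = y * A * l w y n + L w (Λ * psi w y n) := rfl
  rw [e1, Z_nil, L_mul, L_def]
  have e2 : (fun i => hat w Λ i * hat w (psi w y n) i) = fun i =>
      l w y n * hat w Λ i - hat w Λ i * ((w i - y) * ch w y n i) := by
    funext i; rw [hat_psi]; ring
  rw [e2, E_sub, E_const_mul]
  ring

/-- the value of a child with two legs -/
theorem Z_two (h : Hyp w y) (A : ℝ) (Λ : ℝ[X]) (a b : ℕ) :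
    Z w y A Λ (.cons (R [a, b]) .nil) = Z w y A Λ (B.path (a + b + 3)) +
      y * (E w (fun i => (w i - y) * ch w y (a + 1) i * ch w y (b + 1) i * (w i * hat w Λ i)) -
        y * A * E w (fun i => (w i - y) * ch w y (a + 1) i * ch w y (b + 1) i)) := by
  have e0 : R [a, b] = .cons (.path a) (.cons (.path b) .nil) := rfl
  have s1 : (st w y B.nil).a = 1 := rfl
  have s2 : (st w y B.nil).p = 1 := rfl
  rw [e0, Z_cons, Z_merge, s1, s2, mul_one, mul_one, mul_one, mul_one, mul_one]
  have e1 : Z w y (L w Λ) (C (y * A) + Polynomial.X * Λ) (.cons (.path (a + b + 1)) .nil) =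
      Z w y A Λ (B.path (a + b + 3)) := by
    have : B.path (a + b + 3) = .cons (.cons (.path (a + b + 1)) .nil) .nil := rfl
    rw [this, Z_cons w y A Λ, s1, s2, mul_one, mul_one, mul_one]
  rw [e1]
  congr 2
  rw [← E_const_mul, ← E_sub]
  congr 1
  funext k
  rw [map_add, hat_C, hat_X_mul, Pi.add_apply, K'_apply, L_def]
  ring

theorem size_two (a b : ℕ) : (B.cons (R [a, b]) .nil).size = a + b + 3 := by
  simp only [R, B.size, B.size_path]; omega

theorem lt_two (a b : ℕ) : Lt (B.path (a + b + 3)) (.cons (R [a, b]) .nil) := by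
  refine ⟨by rw [B.size_path, size_two], Or.inl ?_⟩
  have h1 := lv_path (a + b + 3)
  have h2 := lv_R [a, b]
  have e1 : lv (B.cons (R [a, b]) .nil) = max 1 (lv (R [a, b])) + 0 := rfl
  rw [e1, h2]
  simp only [List.length_cons, List.length_nil]
  omega

/-- GoodTwo for legs not both of even length -/
theorem good_two_aux (h : Hyp w y)
    (hI : ∀ k N : ℕ, 1 ≤ N → Pw w y (k + N) * Pw w y 1 ≤ Pw w y (1 + N) * Pw w y k)
    {a : ℕ} (b : ℕ) (ha : Even a) : Good w y (.cons (R [a, b]) .nil) := by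
  intro A Λ k hA hΛ h1 h2
  obtain ⟨t, ht⟩ := exists_top h
  have g1 := h1 .nil (by rw [size_two]; simp [B.size])
  have g2 := h2 _ (lt_two a b)
  rw [B.size_path] at g2
  have e0 : k + (B.nil).size = k := rfl
  rw [e0] at g1
  rw [size_two, Z_two h]
  set N := a + b + 3 with hN
  set H := E w (fun i => (w i - y) * ch w y (a + 1) i * ch w y (b + 1) i) with hH
  set T := E w (fun i => (1 + y - w i) * ((w i - y) * ch w y N i)) with hT
  set V := E w (fun i => (w i - y) * ch w y (a + 1) i * ch w y (b + 1) i * (w i * hat w Λ i)) with hV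
  set M := E w (fun i => hat w Λ i * ((w i - y) * ch w y N i)) with hM
  have hHpos : 0 < H := E_pos h fun i =>
    mul_pos (mul_pos (sub_pos.2 (h.lt i)) (ch_pos h a i)) (ch_pos h b i)
  have hTpos : 0 < T := E_pos h fun i => by
    have h3 := w_lt_one h i
    have h4 := h.lt i
    have h5 := ch_pos h (a + b + 2) i
    have h6 := h.hy
    exact mul_pos (by linarith) (mul_pos (by linarith) h5)
  have f1 := F1_two (b := b) h ht ha (Cone.hat h.nn hΛ)
  have f0 := F0_two (b := b) h ht ha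
  have hP := Pw_add h N
  rw [← hT] at hP
  have hZN := Z_path (w := w) (y := y) A Λ N
  have hLΛ : E w (hat w Λ) = L w Λ := rfl
  have hZ0 := Z_nil (w := w) (y := y) A Λ
  rw [← hM] at hZN
  have i1 := hI k N (by omega)
  have p0 := Pw_pos h (k + N)
  have p1 := Pw_pos h (1 + N)
  have p2 := Pw_pos h 1
  set Z0 := Z w y A Λ .nil with hZ0'
  set ZN := Z w y A Λ (B.path N) with hZN'
  -- T * Z_F >= ...
  have c1 : (T - y * Pw w y 1 * H) * ZN + y * H * Pw w y (1 + N) * Z0 ≤
      T * (ZN + y * (V - y * A * H)) := by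
    have e1 : T * (ZN + y * (V - y * A * H)) -
        ((T - y * Pw w y 1 * H) * ZN + y * H * Pw w y (1 + N) * Z0) =
        y * (T * (V + L w Λ * H) - Pw w y 1 * H * M) := by
      rw [hP, hZN, hZ0]
      ring
    have e2 := mul_nonneg h.hy.le (sub_nonneg.2 f1)
    rw [hLΛ] at e2
    linarith
  have c2 : (T - y * Pw w y 1 * H) * Pw w y (k + N) ≤ (T - y * Pw w y 1 * H) * ZN :=
    mul_le_mul_of_nonneg_left g2 (by linarith)
  have c3 : y * H * Pw w y (1 + N) * Pw w y k ≤ y * H * Pw w y (1 + N) * Z0 :=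
    mul_le_mul_of_nonneg_left g1 (mul_nonneg (mul_nonneg h.hy.le hHpos.le) p1.le)
  have c4 := mul_le_mul_of_nonneg_left i1 (mul_nonneg h.hy.le hHpos.le)
  have c5 : T * Pw w y (k + N) ≤ T * (ZN + y * (V - y * A * H)) := by
    linarith
  exact le_of_mul_le_mul_left c5 hTpos

theorem good_two (h : Hyp w y)
    (hI : ∀ k N : ℕ, 1 ≤ N → Pw w y (k + N) * Pw w y 1 ≤ Pw w y (1 + N) * Pw w y k)
    {a b : ℕ} (hab : Even a ∨ Even b) : Good w y (.cons (R [a, b]) .nil) := by
  rcases hab with ha | hb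
  · exact good_two_aux h hI b ha
  · have := good_two_aux h hI a hb
    refine Good.sim (Sim.cons ?_ (Sim.refl _)) this
    exact Sim.swap _ _ _

end Pool.Agent.Helper20.SW
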