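import Pool.Agent.Helper66.SW.Perr
import Pool.Agent.Helper4.SW.F1
import Pool.Agent.Helper4.SW.Two
import Pool.Agent.Helper20.SW.Asm3
import Pool.Agent.Helper20.SW.TwoGood

/-!
S-world: structural facts for the spider with two legs of even length in a context with at least
three vertices: limit ratios of the leg messages, the Perron identity, the extended cone, and the
deletion certificate.
-/

set_option autoImplicit false

namespace Pool.Agent.Helper20.SW.EE

open Pool.Agent.Helper6.HL hiding X
open Finset Polynomial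
open Pool.Agent.Helper4.SW
open Pool.Agent.Helper31.SW (PerA Per xx per_step per_step' lim_alt)

variable {q : ℕ} {w : Fin q → ℝ} {y : ℝ}

theorem E_xx_fs (k : ℕ) : E (xx w y) (fs w y k) = Pw w y k := by
  rw [Pw_fs]
  rfl

theorem fs_K (k : ℕ) : fs w y (k + 1) = K' (xx w y) (fs w y k) := by
  funext i
  rw [fs_step, K'_apply, E_xx_fs]
  rfl

theorem xx_top (h : Hyp w y) {t : Fin q} (ht : Helper4.SW.Top w t) :
    ∀ i, xx w y i ≤ xx w y t.succ :=
  fun i => Fin.cases (h.lt t).le (fun i => ht i) i

/-- (S1): the ratios of the leg messages lie alternately below and above the Perron ratios -/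
theorem fs_lim (h : Hyp w y) {lam : ℝ} (hp : PerA w y lam) {t : Fin q}
    (ht : Helper4.SW.Top w t) (k : ℕ) :
    (Even k → ∀ i, (lam + xx w y i) * fs w y k i ≤ (lam + w t) * fs w y k t.succ) ∧
    (Odd k → ∀ i, (lam + w t) * fs w y k t.succ ≤ (lam + xx w y i) * fs w y k i) := by
  have hpos := Helper31.SW.Hyp.xx_pos h
  have htx := xx_top h ht
  induction k with
  | zero =>
    refine ⟨fun _ i => ?_, fun hk => absurd hk (by simp)⟩
    have e : ∀ j, fs w y 0 j = 1 := by
      intro j
      refine Fin.cases ?_ (fun j => ?_) j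
      · rw [fs_zero, l_zero]
      · rw [fs_succ, psi_zero, hat_one]
    rw [e, e]
    have h1 := htx i
    have h2 : xx w y t.succ = w t := rfl
    linarith
  | succ k ih =>
    refine ⟨fun hk i => ?_, fun hk i => ?_⟩
    · have hk' : Odd k := by
        rcases Nat.even_or_odd k with h1 | h1
        · exact absurd hk (Nat.not_even_iff_odd.2 h1.add_one)
        · exact h1
      rw [fs_K]
      exact per_step' hp hpos htx (fun j => ih.2 hk' j) i
    · have hk' : Even k := by
        rcases Nat.even_or_odd k with h1 | h1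
        · exact h1
        · exact absurd hk (Nat.not_odd_iff_even.2 h1.add_one)
      rw [fs_K]
      exact per_step hp hpos htx (fun j => ih.1 hk' j) i

theorem psi_lim_even (h : Hyp w y) {lam : ℝ} (hp : PerA w y lam) {t : Fin q}
    (ht : Helper4.SW.Top w t) {k : ℕ} (hk : Even k) (i : Fin q) :
    (lam + w i) * hat w (psi w y k) i ≤ (lam + w t) * hat w (psi w y k) t :=
  (fs_lim h hp ht k).1 hk i.succ

theorem psi_lim_odd (h : Hyp w y) {lam : ℝ} (hp : PerA w y lam) {t : Fin q}
    (ht : Helper4.SW.Top w t) {k : ℕ} (hk : Odd k) (i : Fin q) :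
    (lam + w t) * hat w (psi w y k) t ≤ (lam + w i) * hat w (psi w y k) i :=
  (fs_lim h hp ht k).2 hk i.succ

/-- (S2) -/
theorem Pw_le_even (h : Hyp w y) {lam : ℝ} (hp : PerA w y lam) {t : Fin q}
    (ht : Helper4.SW.Top w t) {k : ℕ} (hk : Even k) :
    Pw w y k ≤ (lam + w t) * hat w (psi w y k) t := by
  have hpos := Helper31.SW.Hyp.xx_pos h
  have hl := hp.1
  rw [Pw_fs]
  have h1 : ∀ i, al w y i * fs w y k i ≤
      xx w y i / (lam + xx w y i) * ((lam + w t) * fs w y k t.succ) := by
    intro i
    have h2 := (fs_lim h hp ht k).1 hk i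
    have h3 : 0 < lam + xx w y i := add_pos hl (hpos i)
    have h4 := mul_le_mul_of_nonneg_left h2 (div_nonneg (hpos i).le h3.le)
    refine le_trans (le_of_eq ?_) h4
    have e : al w y i = xx w y i := rfl
    rw [e]
    field_simp
  refine (sum_le_sum fun i _ => h1 i).trans (le_of_eq ?_)
  rw [← sum_mul, hp.2, one_mul]
  rfl

/-- (S3), all parts -/
theorem sum_per (h : Hyp w y) {lam : ℝ} (hp : PerA w y lam) :
    ∑ i, w i * (w i - y) / (lam + w i) = 1 - lam := by
  have hl := hp.1
  have h1 := Helper31.SW.PerA.sum hp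
  have e : ∀ i, w i * (w i - y) / (lam + w i) = w i - (lam + y) * (w i / (lam + w i)) := by
    intro i
    have h2 : lam + w i ≠ 0 := (add_pos hl (h.pos i)).ne'
    field_simp
    ring
  rw [sum_congr rfl fun i _ => e i, sum_sub_distrib, ← mul_sum, h.one]
  have h3 : lam + y ≠ 0 := (add_pos hl h.hy).ne'
  have h4 : ∑ i, w i / (lam + w i) = 1 - y / (lam + y) := by linarith
  rw [h4]
  field_simp
  ring

/-- (S3), without the largest part -/
theorem sum_per' (h : Hyp w y) {lam : ℝ} (hp : PerA w y lam) (t : Fin q) :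
    ∑ i ∈ univ.erase t, w i * (w i - y) * ((lam + w t) / (lam + w i)) =
      (1 - w t) * lam + (1 - w t + y) * w t - lam ^ 2 := by
  have hl := hp.1
  have h1 := sum_per h hp
  rw [Helper66.SW.sum_split _ t] at h1
  have h2 : lam + w t ≠ 0 := (add_pos hl (h.pos t)).ne'
  have h3 : ∑ i ∈ univ.erase t, w i * (w i - y) * ((lam + w t) / (lam + w i)) =
      (lam + w t) * ∑ i ∈ univ.erase t, w i * (w i - y) / (lam + w i) := by
    rw [mul_sum]
    exact sum_congr rfl fun i _ => by ring
  rw [h3]
  have h4 : ∑ i ∈ univ.erase t, w i * (w i - y) / (lam + w i) =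
      1 - lam - w t * (w t - y) / (lam + w t) := by linarith
  rw [h4]
  field_simp
  ring

/-- one light part -/
theorem one_per (h : Hyp w y) {lam : ℝ} (hp : PerA w y lam) {t i : Fin q} (hit : i ≠ t) :
    w i * (w i - y) * ((lam + w t) / (lam + w i)) ≤
      (1 - w t) * lam + (1 - w t + y) * w t - lam ^ 2 := by
  rw [← sum_per' h hp t]
  have hl := hp.1
  exact single_le_sum (f := fun i => w i * (w i - y) * ((lam + w t) / (lam + w i)))
    (fun j _ => mul_nonneg (mul_nonneg (h.nn j) (sub_nonneg.2 (h.lt j).le))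
      (div_nonneg (add_nonneg hl.le (h.nn t)) (add_nonneg hl.le (h.nn j))))
    (mem_erase.2 ⟨hit, mem_univ i⟩)

theorem lam_up (h : Hyp w y) {lam : ℝ} (hp : PerA w y lam) {t i : Fin q} (ht : Helper4.SW.Top w t)
    (hit : i ≠ t) : lam ^ 2 + w i * (w i - y) ≤ (1 - w t) * lam + (1 - w t + y) * w t := by
  have h1 := one_per h hp hit
  have hl := hp.1
  have h2 : 1 ≤ (lam + w t) / (lam + w i) := by
    rw [one_le_div (add_pos hl (h.pos i))]
    linarith [ht i]
  have h3 : 0 ≤ w i * (w i - y) := mul_nonneg (h.nn i) (sub_nonneg.2 (h.lt i).le)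
  have h4 := mul_le_mul_of_nonneg_left h2 h3
  linarith

theorem lam_ge (h : Hyp w y) {lam : ℝ} (hp : PerA w y lam) {t : Fin q} (ht : Helper4.SW.Top w t) :
    1 - w t + y ≤ lam := by
  have h1 := Helper66.SW.lam_sq h hp t
  have hl := hp.1
  have h2 := half_top h ht
  have h3 := h.hy
  have h4 := Helper66.SW.y_le_sig h t
  by_contra hc
  push Not at hc
  have h5 : lam * lam ≤ (1 - w t + y) * (1 - w t + y) := mul_self_le_mul_self hl.le hc.le
  nlinarith

/-- (S5): the extended cone -/
theorem ext_K (h : Hyp w y) {t : Fin q} (ht : Helper4.SW.Top w t) {f : Fin q → ℝ} (hf : Cone w f)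
    (i : Fin q) : (1 - w t) * K' w f i ≤ (1 - w i) * K' w f t := by
  rcases eq_or_ne i t with rfl | hit
  · exact le_rfl
  rw [K'_apply, K'_apply]
  have h1 : w t * f t + w i * f i + (1 - w t - w i) * f t ≤ E w f := by
    rw [E, Helper66.SW.sum_split _ t]
    have h2 : i ∈ univ.erase t := mem_erase.2 ⟨hit, mem_univ i⟩
    rw [← add_sum_erase (univ.erase t) (fun i => w i * f i) h2]
    have h3 : ∑ j ∈ (univ.erase t).erase i, w j = 1 - w t - w i := by
      have := add_sum_erase (univ.erase t) w h2
      rw [Helper66.SW.sum_erase h t] at this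
      linarith
    have h4 : (1 - w t - w i) * f t ≤ ∑ j ∈ (univ.erase t).erase i, w j * f j := by
      rw [← h3, sum_mul]
      exact sum_le_sum fun j _ => mul_le_mul_of_nonneg_left (hf.anti j t (ht j)) (h.nn j)
    linarith
  have h5 := ht i
  have h6 := hf.anti i t (ht i)
  have h7 := mul_le_mul_of_nonneg_left h1 (sub_nonneg.2 h5)
  have h8 : 0 ≤ w i * (1 - w i) * (f i - f t) :=
    mul_nonneg (mul_nonneg (h.nn i) (sub_nonneg.2 (w_lt_one h i).le)) (sub_nonneg.2 h6)
  nlinarith

theorem ext_hat (h : Hyp w y) {t : Fin q} (ht : Helper4.SW.Top w t) {p : ℝ[X]} (hp : NN p)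
    (i : Fin q) : (1 - w t) * hat w p i ≤ (1 - w i) * hat w p t := by
  have hpow : ∀ n : ℕ, (1 - w t) * ((K' w) ^ n) (fun _ => 1) i ≤
      (1 - w i) * ((K' w) ^ n) (fun _ => 1) t := by
    intro n
    rcases n with _ | n
    · simp only [pow_zero, Module.End.one_apply, mul_one]
      linarith [ht i]
    · rw [pow_succ']
      have hc : Cone w (((K' w) ^ n) (fun _ => (1 : ℝ))) := by
        have := (Cone.const h.nn (w := w) zero_le_one).aeval h.nn (p := (Polynomial.X : ℝ[X]) ^ n)
          (by
            intro m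
            rw [coeff_X_pow]
            split_ifs <;> norm_num)
        simpa only [map_pow, aeval_X] using this
      exact ext_K h ht hc i
  rw [hat_def, aeval_eq_sum_range, LinearMap.sum_apply, Finset.sum_apply, Finset.sum_apply, mul_sum,
    mul_sum]
  refine sum_le_sum fun n _ => ?_
  rw [LinearMap.smul_apply, Pi.smul_apply, Pi.smul_apply, smul_eq_mul, smul_eq_mul]
  have := mul_le_mul_of_nonneg_left (hpow n) (hp n)
  linarith

/-- `l_N P_k - P_{k+N}` -/
theorem tk_eq (k N : ℕ) : l w y N * Pw w y k - Pw w y (k + N) =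
    E w (fun i => hat w (psi w y k) i * kap w y N i) := by
  have h1 := Helper4.SW.Pw_add w y k N
  have h2 : Pw w y k = y * l w y k + E w (hat w (psi w y k)) := by
    rw [Helper4.SW.Pw_eq, l_succ w y k, L_def]
  have e : (fun i => hat w (psi w y k) i * hat w (psi w y N) i) =
      fun i => l w y N * hat w (psi w y k) i - hat w (psi w y k) i * kap w y N i := by
    funext i; rw [hat_psi_kap w y N]; ring
  rw [h1, h2, e, E_sub, E_const_mul]
  ring

/-- the deletion certificate in a context with `k` further vertices -/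
theorem good_at (h : Hyp w y) (a b : ℕ) {A : ℝ} {Λ : ℝ[X]} {k : ℕ}
    (hF : Pw w y k * E w (fun i => (w i - y) * ch w y (a + 1) i * ch w y (b + 1) i) *
        E w (fun i => hat w Λ i * kap w y (a + b + 3) i) ≤
      E w (fun i => hat w (psi w y k) i * kap w y (a + b + 3) i) *
        (E w (fun i => (w i - y) * ch w y (a + 1) i * ch w y (b + 1) i * (w i * hat w Λ i)) +
          E w (hat w Λ) * E w (fun i => (w i - y) * ch w y (a + 1) i * ch w y (b + 1) i)))
    (h1 : ∀ F' : B, F'.size < (B.cons (R [a, b]) .nil).size →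
      Pw w y (k + F'.size) ≤ Z w y A Λ F')
    (h2 : ∀ F' : B, Lt F' (.cons (R [a, b]) .nil) → Pw w y (k + F'.size) ≤ Z w y A Λ F') :
    Pw w y (k + (B.cons (R [a, b]) .nil).size) ≤ Z w y A Λ (.cons (R [a, b]) .nil) := by
  have g1 := h1 .nil (by rw [size_two]; simp [B.size])
  have g2 := h2 _ (lt_two a b)
  rw [B.size_path] at g2
  have e0 : k + (B.nil).size = k := rfl
  rw [e0] at g1
  rw [size_two, Z_two h]
  set N := a + b + 3 with hN
  set H := E w (fun i => (w i - y) * ch w y (a + 1) i * ch w y (b + 1) i) with hH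
  set T := E w (fun i => hat w (psi w y k) i * kap w y N i) with hT
  set V := E w (fun i => (w i - y) * ch w y (a + 1) i * ch w y (b + 1) i * (w i * hat w Λ i)) with hV
  set M := E w (fun i => hat w Λ i * kap w y N i) with hM
  have hHpos : 0 < H := Helper20.SW.E_pos h fun i =>
    mul_pos (mul_pos (sub_pos.2 (h.lt i)) (ch_pos h a i)) (ch_pos h b i)
  have hTpos : 0 < T := Helper20.SW.E_pos h fun i => mul_pos (psi_pos h k i) (kap_pos h (a + b + 2) i)
  have hP := tk_eq (w := w) (y := y) k N
  rw [← hT] at hP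
  have hZN := Helper20.SW.Z_path (w := w) (y := y) A Λ N
  have hLΛ : E w (hat w Λ) = L w Λ := rfl
  have hZ0 := Helper20.SW.Z_nil (w := w) (y := y) A Λ
  have hM' : E w (fun i => hat w Λ i * ((w i - y) * ch w y N i)) = M := rfl
  rw [hM'] at hZN
  -- (F0)
  have hnb : Pw w y (1 + N) ≤ (l w y N - y * H) * Pw w y 1 := by
    have h3 := notBadTwo h a b
    unfold Bad at h3
    have h4 := not_lt.1 h3
    have e1 := sa_two (w := w) (y := y) a b
    rw [← hH] at e1
    have e2 : [a, b].sum + [a, b].length + 2 = 1 + N := by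
      simp only [List.sum_cons, List.sum_nil, List.length_cons, List.length_nil]; omega
    rw [e2, e1] at h4
    exact h4
  have hr := Pw_ratio h k N
  have p0 := Pw_pos h (k + N)
  have p1 := Helper20.SW.Pw_pos h 1
  have pk := Helper20.SW.Pw_pos h k
  have f0 : y * Pw w y k * H ≤ T := by
    have h5 : Pw w y (k + N) * Pw w y 1 ≤ (l w y N - y * H) * Pw w y k * Pw w y 1 := by
      have := mul_le_mul_of_nonneg_right hnb pk.le
      linarith
    have h6 := le_of_mul_le_mul_right h5 p1
    linarith
  set Z0 := Z w y A Λ .nil with hZ0'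
  set ZN := Z w y A Λ (B.path N) with hZN'
  have c1 : (T - y * Pw w y k * H) * ZN + y * H * Pw w y (k + N) * Z0 ≤
      T * (ZN + y * (V - y * A * H)) := by
    have e1 : T * (ZN + y * (V - y * A * H)) -
        ((T - y * Pw w y k * H) * ZN + y * H * Pw w y (k + N) * Z0) =
        y * (T * (V + L w Λ * H) - Pw w y k * H * M) := by
      have e2 : Pw w y (k + N) = l w y N * Pw w y k - T := by linarith
      rw [e2, hZN, hZ0]
      ring
    have e2 := mul_nonneg h.hy.le (sub_nonneg.2 hF)
    rw [hLΛ] at e2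
    linarith
  have c2 : (T - y * Pw w y k * H) * Pw w y (k + N) ≤ (T - y * Pw w y k * H) * ZN :=
    mul_le_mul_of_nonneg_left g2 (by linarith)
  have c3 : y * H * Pw w y (k + N) * Pw w y k ≤ y * H * Pw w y (k + N) * Z0 :=
    mul_le_mul_of_nonneg_left g1 (mul_nonneg (mul_nonneg h.hy.le hHpos.le) p0.le)
  have c5 : T * Pw w y (k + N) ≤ T * (ZN + y * (V - y * A * H)) := by
    nlinarith
  exact le_of_mul_le_mul_left c5 hTpos

end Pool.Agent.Helper20.SW.EE
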