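import Pool.Agent.Helper20.SW.LemD

/-!
The inequality (F0): a spider with two legs (not both even) is good.
-/

set_option autoImplicit false

namespace Pool.Agent.Helper20.SW

open Finset
open Pool.Agent.Helper4.SW

variable {q : ℕ} {w : Fin q → ℝ} {y : ℝ}

/-- polynomial inequality [F] -/
theorem polyF {X y x s : ℝ} (hy : 0 ≤ y) (hyx : y ≤ x) (hxs : x ≤ s) (hX : X = 1 - s)
    (hB : 1 + y ≤ 2 * X) :
    0 ≤ s * X * (X - y) * (s - y) * (y + s - s * s) +
      (x - y) * (1 - x) * (s * (y + s - s * s) * (1 + y - x) - y * (y + s) * (1 + X) * (1 - x)) := by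
  obtain ⟨v, rfl⟩ : ∃ v, x = y + v := ⟨x - y, by ring⟩
  obtain ⟨r, rfl⟩ : ∃ r, s = y + v + r := ⟨s - y - v, by ring⟩
  obtain ⟨u, hu⟩ : ∃ u, u = 2 * X - 1 - y := ⟨_, rfl⟩
  have hv : 0 ≤ v := by linarith
  have hr : 0 ≤ r := by linarith
  have hu0 : 0 ≤ u := by linarith
  have hX' : X = u + 2 * y + v + r := by linarith
  have h1 : (1 : ℝ) = u + 3 * y + 2 * v + 2 * r := by linarith
  have e1 : 1 - (y + v) = u + 2 * y + v + 2 * r := by linarith
  have e2 : 1 + X = 2 * u + 5 * y + 3 * v + 3 * r := by linarith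
  have e3 : y + (y + v + r) - (y + v + r) * (y + v + r) =
      (2 * y + v + r) * (u + 3 * y + 2 * v + 2 * r) - (y + v + r) * (y + v + r) := by
    rw [← h1]; ring
  have e4 : 1 + y - (y + v) = u + 3 * y + v + 2 * r := by linarith
  rw [e1, e2, e3, e4, hX']
  ring_nf
  positivity

theorem lemF0 (h : Hyp w y) {t : Fin q} (hB : 1 + y ≤ 2 * w t) {k th : Fin q → ℝ}
    (kt : k t = 1) (tht : th t = 1)
    (hk0 : ∀ i, 0 ≤ k i) (hk : ∀ i, (1 - w t) * k i ≤ 1 - w i)
    (hth : ∀ i, (1 - w t) * th i ≤ (1 - w i) * k i) :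
    (1 + 2 * y - ∑ i, w i * w i) * (y * ∑ i, w i * (w i - y) * th i) ≤
      (y + (1 - w t) - ∑ i ∈ univ.erase t, w i * w i) *
        (∑ i, w i * (w i - y) * k i * (1 + y - w i)) := by
  classical
  set X := w t with hX
  set s := 1 - X with hs
  have hyX : y < X := h.lt t
  obtain ⟨j0, hj0⟩ := h.ne t
  have hys : y < s := lt_of_lt_of_le (h.lt j0) (le_sig h hj0)
  have hspos : 0 < s := h.hy.trans hys
  have hXpos : 0 < X := h.hy.trans hyX
  have hd : 0 < X - y := sub_pos.2 hyX
  have hX1 : X = 1 - s := by rw [hs]; ring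
  set c : Fin q → ℝ := fun i => w i * (w i - y) * k i with hc
  set W : Fin q → ℝ := fun i => w i * (w i - y) with hW
  have hWpos : ∀ i, 0 < W i := fun i => mul_pos (h.pos i) (sub_pos.2 (h.lt i))
  have hc0 : ∀ i, 0 ≤ c i := fun i => mul_nonneg (hWpos i).le (hk0 i)
  have hct : c t = W t := by simp only [hc, hW, kt, mul_one]
  set W0 := W t with hW0
  have hW0pos : 0 < W0 := hWpos t
  have hW0' : W0 = X * (X - y) := rfl
  set W' := ∑ i ∈ univ.erase t, W i with hW'
  set ε := y + s with hε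
  have hεpos : 0 < ε := by rw [hε]; linarith [h.hy]
  have hP2 : 1 + 2 * y - ∑ i, w i * w i = (1 + X) * ε - W' := by
    have e1 : ∑ i, w i * w i = X * X + ∑ i ∈ univ.erase t, w i * w i := by
      rw [hX, ← add_sum_erase univ (fun i => w i * w i) (mem_univ t)]
    have e2 : W' = ∑ i ∈ univ.erase t, w i * w i - y * s := by
      rw [hW', hs, hX, ← sum_erase_w h t, mul_sum, ← sum_sub_distrib]
      exact sum_congr rfl fun i _ => by simp only [hW]; ring
    rw [e1, e2, hε, hX1]
    ring
  have hc2 : y + s - ∑ i ∈ univ.erase t, w i * w i = ε - W' - y * s := by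
    have e2 : W' = ∑ i ∈ univ.erase t, w i * w i - y * s := by
      rw [hW', hs, hX, ← sum_erase_w h t, mul_sum, ← sum_sub_distrib]
      exact sum_congr rfl fun i _ => by simp only [hW]; ring
    rw [e2, hε]; ring
  have hwi : ∀ i, i ≠ t → y < w i ∧ w i ≤ s := fun i hi => ⟨h.lt i, le_sig h hi⟩
  have h1w : ∀ i, i ≠ t → 0 ≤ 1 - w i := fun i hi => by
    have := (hwi i hi).2
    rw [hs] at this
    linarith
  have hW'le : W' ≤ s * (s - y) := by
    have : W' ≤ ∑ i ∈ univ.erase t, w i * (s - y) := sum_le_sum fun i hi =>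
      mul_le_mul_of_nonneg_left (sub_le_sub_right (hwi i (mem_erase.1 hi).1).2 y) (h.nn i)
    rw [← sum_mul, sum_erase_w h t] at this
    exact this
  have hW'0 : 0 ≤ W' := sum_nonneg fun j _ => (hWpos j).le
  set e2 := ε - s * s with he2
  have he20 : 0 < e2 := by
    rw [he2, hε, show y + s - s * s = y + s * (1 - s) by ring, ← hX1]
    have := mul_pos hspos hXpos
    linarith [h.hy]
  set c2 := ε - W' - y * s with hc2'
  have hc2ge : e2 ≤ c2 := by rw [he2, hc2']; linarith
  set P2 := (1 + X) * ε - W' with hP2'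
  have hP2le : P2 ≤ (1 + X) * ε := by rw [hP2']; linarith
  have hP20 : 0 ≤ P2 := by
    rw [hP2', hε, hX1]
    linarith [mul_nonneg h.hy.le hspos.le]
  have hc20 : 0 ≤ c2 := he20.le.trans hc2ge
  -- the difference as a sum
  have hsum : c2 * (∑ i, c i * (1 + y - w i)) - P2 * (y * ∑ i, W i * th i) =
      W0 * (c2 * ε - y * P2) + ∑ i ∈ univ.erase t,
        (c2 * (c i * (1 + y - w i)) - P2 * (y * (W i * th i))) := by
    rw [sum_sub_distrib, ← mul_sum, ← mul_sum, ← mul_sum,
      ← add_sum_erase univ (fun i => c i * (1 + y - w i)) (mem_univ t),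
      ← add_sum_erase univ (fun i => W i * th i) (mem_univ t), hct, tht, ← hW0]
    have : 1 + y - w t = ε := by rw [hε, hs, hX]; ring
    rw [this]
    ring
  have hterm : ∀ i, i ≠ t → -(w i * (W0 * ((s - y) * e2))) ≤
      s * (c2 * (c i * (1 + y - w i)) - P2 * (y * (W i * th i))) := by
    intro i hi
    obtain ⟨h1, h2⟩ := hwi i hi
    have hyy : 0 ≤ 1 + y - w i := by have := h1w i hi; linarith [h.hy]
    have a1 : s * (W i * th i) ≤ (1 - w i) * c i := by
      have := mul_le_mul_of_nonneg_left (hth i) (hWpos i).le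
      simp only [hc]
      simp only [hW] at this ⊢
      linarith
    have a2 : s * c i ≤ (1 - w i) * W i := by
      have := mul_le_mul_of_nonneg_left (hk i) (hWpos i).le
      simp only [hc]
      simp only [hW] at this ⊢
      linarith
    have a3 : P2 * (y * (s * (W i * th i))) ≤ (1 + X) * ε * (y * ((1 - w i) * c i)) := by
      have b1 := mul_le_mul_of_nonneg_left (mul_le_mul_of_nonneg_left a1 h.hy.le) hP20
      have b2 : P2 * (y * ((1 - w i) * c i)) ≤ (1 + X) * ε * (y * ((1 - w i) * c i)) :=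
        mul_le_mul_of_nonneg_right hP2le (mul_nonneg h.hy.le (mul_nonneg (h1w i hi) (hc0 i)))
      exact b1.trans b2
    have a4 : s * (e2 * (c i * (1 + y - w i))) ≤ s * (c2 * (c i * (1 + y - w i))) :=
      mul_le_mul_of_nonneg_left (mul_le_mul_of_nonneg_right hc2ge (mul_nonneg (hc0 i) hyy)) hspos.le
    set Nn := s * e2 * (1 + y - w i) - y * ε * (1 + X) * (1 - w i) with hNn
    have a5 : c i * Nn ≤ s * (c2 * (c i * (1 + y - w i)) - P2 * (y * (W i * th i))) := by
      rw [hNn]; linarith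
    refine le_trans ?_ a5
    rcases le_total 0 Nn with h3 | h3
    · have b1 := mul_nonneg (hc0 i) h3
      have b2 := mul_nonneg (h.nn i) (mul_nonneg hW0pos.le (mul_nonneg (sub_nonneg.2 hys.le) he20.le))
      linarith
    · have b1 : s * (c i * Nn) ≥ (1 - w i) * W i * Nn := by
        have := mul_le_mul_of_nonpos_right a2 h3
        linarith
      have b2 := polyF h.hy.le h1.le h2 hX1 hB
      have b3 := mul_nonneg (h.nn i) b2
      have b4 : s * -(w i * (W0 * ((s - y) * e2))) ≤ s * (c i * Nn) := by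
        refine le_trans ?_ b1
        have e1 : y + s - s * s = e2 := by rw [he2, hε]
        rw [e1] at b3
        have e3 : (1 - w i) * W i * Nn = w i * ((w i - y) * (1 - w i) *
            (s * e2 * (1 + y - w i) - y * (y + s) * (1 + X) * (1 - w i))) := by
          simp only [hW, hNn, hε]; ring
        rw [e3, hW0']
        linarith
      exact le_of_mul_le_mul_left b4 hspos
  have h0 : (s - y) * e2 ≤ c2 * ε - y * P2 := by
    have e1 : c2 * ε - y * P2 = ε * (s - y) - s * W' := by
      rw [hc2', hP2', hε, hX1]; ring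
    rw [e1, he2]
    nlinarith
  have hfin : 0 ≤ s * (c2 * (∑ i, c i * (1 + y - w i)) - P2 * (y * ∑ i, W i * th i)) := by
    rw [hsum, mul_add, mul_sum]
    have e1 : ∑ i ∈ univ.erase t, -(w i * (W0 * ((s - y) * e2))) ≤ ∑ i ∈ univ.erase t,
        s * (c2 * (c i * (1 + y - w i)) - P2 * (y * (W i * th i))) :=
      sum_le_sum fun i hi => hterm i (mem_erase.1 hi).1
    rw [sum_neg_distrib, ← sum_mul, sum_erase_w h t] at e1
    have e3 := mul_le_mul_of_nonneg_left h0 hW0pos.le
    have e4 := mul_le_mul_of_nonneg_left e3 hspos.le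
    rw [← hX, ← hs] at e1
    linarith
  rw [hP2, hc2]
  have := nonneg_of_mul_nonneg_right hfin hspos
  exact sub_nonneg.1 this

end Pool.Agent.Helper20.SW
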