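import Pool.Agent.Helper4.SW.Path

/-!
The top-normalised elementary inequality (Lemma D) of the S-world.
-/

set_option autoImplicit false

namespace Pool.Agent.Helper20.SW

open Finset

/-- polynomial inequality (B) -/
theorem polyB {X y x s : ℝ} (hy : 0 ≤ y) (hyx : y ≤ x) (hxs : x ≤ s) (hX : X = 1 - s)
    (hB : 1 + y ≤ 2 * X) :
    (1 - x) ^ 2 * (x - y) * (s * (X - x) * (X - y) - X * (s - y) * (x - y)) ≤
      X ^ 2 * (s - y) * (X - y) ^ 2 * s := by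
  obtain ⟨v, rfl⟩ : ∃ v, x = y + v := ⟨x - y, by ring⟩
  obtain ⟨r, rfl⟩ : ∃ r, s = y + v + r := ⟨s - y - v, by ring⟩
  obtain ⟨u, hu⟩ : ∃ u, u = 2 * X - 1 - y := ⟨_, rfl⟩
  have hv : 0 ≤ v := by linarith
  have hr : 0 ≤ r := by linarith
  have hu0 : 0 ≤ u := by linarith
  have hX' : X = u + 2 * y + v + r := by linarith
  have e1 : 1 - (y + v) = u + 2 * y + v + 2 * r := by linarith
  rw [e1, hX', ← sub_nonneg]
  ring_nf
  positivity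

/-- polynomial inequality (c2) -/
theorem polyc2 {X y s : ℝ} (hy : 0 ≤ y) (hys : y ≤ s) (hX : X = 1 - s)
    (hB : 1 + y ≤ 2 * X) :
    (s - y) * (s + y) * (1 - y) ≤ s * (s * (X - y) + X * (s - y)) := by
  obtain ⟨r, rfl⟩ : ∃ r, s = y + r := ⟨s - y, by ring⟩
  obtain ⟨u, hu⟩ : ∃ u, u = 2 * X - 1 - y := ⟨_, rfl⟩
  have hr : 0 ≤ r := by linarith
  have hu0 : 0 ≤ u := by linarith
  have hX' : X = u + 2 * y + r := by linarith
  have e1 : 1 - y = u + 2 * y + 2 * r := by linarith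
  rw [e1, hX', ← sub_nonneg]
  ring_nf
  positivity

/-- polynomial inequality [C] -/
theorem polyC {X y x s : ℝ} (hy : 0 ≤ y) (hyx : y ≤ x) (hxs : x ≤ s) (hX : X = 1 - s)
    (hB : 1 + y ≤ 2 * X) :
    (x - y) * (1 - x) * (2 * (1 + X) * (s + y) - (4 + X + y) * x) ≤
      2 * ((s + y) * s * X * (X - y)) := by
  obtain ⟨v, rfl⟩ : ∃ v, x = y + v := ⟨x - y, by ring⟩
  obtain ⟨r, rfl⟩ : ∃ r, s = y + v + r := ⟨s - y - v, by ring⟩
  obtain ⟨u, hu⟩ : ∃ u, u = 2 * X - 1 - y := ⟨_, rfl⟩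
  have hv : 0 ≤ v := by linarith
  have hr : 0 ≤ r := by linarith
  have hu0 : 0 ≤ u := by linarith
  have hX' : X = u + 2 * y + v + r := by linarith
  have e1 : 1 - (y + v) = u + 2 * y + v + 2 * r := by linarith
  have e2 : 1 + X = 2 * u + 5 * y + 3 * v + 3 * r := by linarith
  have e3 : 4 + X + y = 5 * u + 15 * y + 9 * v + 9 * r := by linarith
  rw [e1, e2, e3, hX', ← sub_nonneg]
  have a1 : 0 ≤ u * r * (2 * (r - v) ^ 2 + 3 * v ^ 2 + 2 * r * v + 2 * r ^ 2) := by positivity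
  have a2 : 0 ≤ v * y * (r - v) ^ 2 := by positivity
  have a3 : 0 ≤ r * r * (r - v) ^ 2 := by positivity
  have a4 : 0 ≤ (r ^ 2 - r * v - v ^ 2) ^ 2 := by positivity
  have b : ∀ a b c d : ℕ, 0 ≤ u ^ a * v ^ b * r ^ c * y ^ d := fun a b c d => by positivity
  ring_nf
  nlinarith [b 1 1 1 1, b 1 1 2 0, b 1 1 0 2, b 1 2 1 0, b 1 2 0 1, b 1 3 0 0, b 1 0 1 2, b 1 0 2 1,
    b 1 0 3 0, b 1 0 0 3, b 2 1 0 1, b 2 2 0 0, b 2 0 1 1, b 2 0 2 0, b 2 0 0 2, b 0 1 1 2, b 0 1 2 1,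
    b 0 1 0 3, b 0 2 1 1, b 0 2 0 2, b 0 3 1 0, b 0 3 0 1, b 0 4 0 0, b 0 0 1 3, b 0 0 2 2, b 0 0 3 1,
    b 0 0 4 0, b 0 0 0 4, b 0 2 2 0, b 0 1 3 0]

end Pool.Agent.Helper20.SW
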