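import Pool.Agent.Helper20.SW.Ineq

/-!
Lemma D: the top-normalised elementary inequality.
-/

set_option autoImplicit false

namespace Pool.Agent.Helper20.SW

open Finset
open Pool.Agent.Helper4.SW

variable {q : ℕ} {w : Fin q → ℝ} {y : ℝ}

/-- the smaller parts sum to `1 - w t` -/
theorem sum_erase_w (h : Hyp w y) (t : Fin q) : ∑ i ∈ univ.erase t, w i = 1 - w t := by
  rw [← h.one, ← add_sum_erase univ w (mem_univ t)]
  ring

theorem le_sig (h : Hyp w y) {t i : Fin q} (hi : i ≠ t) : w i ≤ 1 - w t := by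
  rw [← sum_erase_w h t]
  exact single_le_sum (f := w) (fun j _ => h.nn j) (mem_erase.2 ⟨hi, mem_univ i⟩)

theorem lemD (h : Hyp w y) {t : Fin q} (hB : 1 + y ≤ 2 * w t) {k th z : Fin q → ℝ}
    (kt : k t = 1) (tht : th t = 1) (zt : z t = w t)
    (hk0 : ∀ i, 0 ≤ k i) (hk : ∀ i, (1 - w t) * k i ≤ 1 - w i)
    (hth0 : ∀ i, 0 ≤ th i) (hth : ∀ i, (1 - w t) * th i ≤ (1 - w i) * k i)
    (hz : ∀ i, w i ≤ z i) (hz' : ∀ i, z i ≤ w t) :
    (1 + 2 * y - ∑ i, w i * w i) * (∑ i, w i * (w i - y) * th i) *
        (∑ i, (w i - y) * k i * z i) ≤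
      (∑ i, w i * (w i - y) * k i * (1 + y - w i)) *
        ((∑ i, w i * (w i - y) * th i * z i) + (∑ i, z i) * (∑ i, w i * (w i - y) * th i)) := by
  classical
  set X := w t with hX
  set s := 1 - X with hs
  have hyX : y < X := h.lt t
  obtain ⟨j0, hj0⟩ := h.ne t
  have hys : y < s := lt_of_lt_of_le (h.lt j0) (le_sig h hj0)
  have hspos : 0 < s := h.hy.trans hys
  have hXpos : 0 < X := h.hy.trans hyX
  have hd : 0 < X - y := sub_pos.2 hyX
  have hX1 : X = 1 - s := by rw [hs]; ring
  -- basic quantities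
  set a : Fin q → ℝ := fun i => w i * (w i - y) * th i with ha
  set c : Fin q → ℝ := fun i => w i * (w i - y) * k i with hc
  set W : Fin q → ℝ := fun i => w i * (w i - y) with hW
  set σ : Fin q → ℝ := fun i => X - z i with hσ
  set g : Fin q → ℝ := fun i => z i - w i with hg
  have hWpos : ∀ i, 0 < W i := fun i => mul_pos (h.pos i) (sub_pos.2 (h.lt i))
  have ha0 : ∀ i, 0 ≤ a i := fun i => mul_nonneg (hWpos i).le (hth0 i)
  have hc0 : ∀ i, 0 ≤ c i := fun i => mul_nonneg (hWpos i).le (hk0 i)
  have hσ0 : ∀ i, 0 ≤ σ i := fun i => sub_nonneg.2 (hz' i)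
  have hg0 : ∀ i, 0 ≤ g i := fun i => sub_nonneg.2 (hz i)
  have hat : a t = W t := by simp only [ha, hW, tht, mul_one]
  have hct : c t = W t := by simp only [hc, hW, kt, mul_one]
  have hσt : σ t = 0 := by simp only [hσ, zt, sub_self]
  have hgt : g t = 0 := by simp only [hg, zt]; exact sub_self _
  set W0 := W t with hW0
  have hW0pos : 0 < W0 := hWpos t
  have hW0' : W0 = X * (X - y) := rfl
  set A := ∑ i, a i with hA
  set C := ∑ i, c i with hC
  set S := ∑ i, a i * σ i with hS
  set Ts := ∑ i, c i * σ i with hTs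
  set W' := ∑ i ∈ univ.erase t, W i with hW'
  set ε := y + s with hε
  have hεpos : 0 < ε := by rw [hε]; linarith [h.hy]
  set Kp := ∑ i, c i * (1 + y - w i) with hKp
  set R : Fin q → ℝ := fun i => Kp - (w i - y) * k i * ((1 + X) * ε - W' - (1 + X) * w i) with hR
  have hApos : 0 < A := by
    have := single_le_sum (f := a) (fun i _ => ha0 i) (mem_univ t)
    rw [hat] at this
    exact lt_of_lt_of_le hW0pos this
  -- P_2
  have hP2 : 1 + 2 * y - ∑ i, w i * w i = (1 + X) * ε - W' := by
    have e1 : ∑ i, w i * w i = X * X + ∑ i ∈ univ.erase t, w i * w i := by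
      rw [hX, ← add_sum_erase univ (fun i => w i * w i) (mem_univ t)]
    have e2 : W' = ∑ i ∈ univ.erase t, w i * w i - y * s := by
      rw [hW', hs, hX, ← sum_erase_w h t, mul_sum, ← sum_sub_distrib]
      exact sum_congr rfl fun i _ => by simp only [hW]; ring
    rw [e1, e2, hε, hX1]
    ring
  -- the bound for eta
  set η := S / A with hη
  have hSη : S = η * A := by rw [hη, div_mul_cancel₀ _ hApos.ne']
  have hη0 : 0 ≤ η := div_nonneg (sum_nonneg fun i _ => mul_nonneg (ha0 i) (hσ0 i)) hApos.le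
  set D := X * (s - y) + s * (X - y) with hD
  have hDpos : 0 < D := by
    have := mul_pos hXpos (sub_pos.2 hys)
    have := mul_pos hspos hd
    rw [hD]; linarith
  set ηb := X * (s - y) * (X - y) / D with hηb
  have hηbD : ηb * D = X * (s - y) * (X - y) := by rw [hηb, div_mul_cancel₀ _ hDpos.ne']
  have hηb0 : 0 ≤ ηb := div_nonneg (mul_nonneg (mul_nonneg hXpos.le (sub_nonneg.2 hys.le)) hd.le)
    hDpos.le
  -- facts for a fixed nontop index
  have hwi : ∀ i, i ≠ t → y < w i ∧ w i ≤ s := fun i hi => ⟨h.lt i, le_sig h hi⟩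
  have ha1 : ∀ i, s * a i ≤ (1 - w i) * c i := fun i => by
    have := mul_le_mul_of_nonneg_left (hth i) (hWpos i).le
    simp only [ha, hc]
    simp only [hW] at this
    linarith
  have hc1 : ∀ i, s * c i ≤ (1 - w i) * W i := fun i => by
    have := mul_le_mul_of_nonneg_left (hk i) (hWpos i).le
    simp only [hc]
    simp only [hW] at this ⊢
    linarith
  have h1w : ∀ i, i ≠ t → 0 ≤ 1 - w i := fun i hi => by
    have := (hwi i hi).2
    rw [hs] at this
    linarith
  have ha2 : ∀ i, i ≠ t → s ^ 2 * a i ≤ (1 - w i) ^ 2 * W i := fun i hi => by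
    have e1 := mul_le_mul_of_nonneg_left (ha1 i) hspos.le
    have e2 := mul_le_mul_of_nonneg_left (hc1 i) (h1w i hi)
    linarith
  have step0 : η ≤ ηb := by
    have key : ∀ i, i ≠ t → s * (a i * (σ i - ηb)) ≤ w i * (W0 * ηb) := by
      intro i hi
      obtain ⟨h1, h2⟩ := hwi i hi
      have hr : 0 ≤ w i * (W0 * ηb) := mul_nonneg (h.nn i) (mul_nonneg hW0pos.le hηb0)
      rcases le_total (σ i) ηb with h3 | h3
      · exact (mul_nonpos_of_nonneg_of_nonpos hspos.le
          (mul_nonpos_of_nonneg_of_nonpos (ha0 i) (sub_nonpos.2 h3))).trans hr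
      · have h4 : σ i - ηb ≤ X - w i - ηb := by
          have := hz i
          simp only [hσ]; linarith
        have h5 : 0 ≤ X - w i - ηb := (sub_nonneg.2 h3).trans h4
        have h6 : s * (a i * (σ i - ηb)) ≤ s * (a i * (X - w i - ηb)) :=
          mul_le_mul_of_nonneg_left (mul_le_mul_of_nonneg_left h4 (ha0 i)) hspos.le
        refine h6.trans ?_
        have h7 := mul_le_mul_of_nonneg_right (ha2 i hi) h5
        have h8 : (X - w i - ηb) * D = s * (X - w i) * (X - y) - X * (s - y) * (w i - y) := by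
          have : (X - w i - ηb) * D = (X - w i) * D - ηb * D := by ring
          rw [this, hηbD, hD]
          ring
        have h9 := polyB h.hy.le h1.le h2 hX1 hB
        rw [← h8] at h9
        -- s^2 a (X-w-eb) <= (1-w)^2 W (X-w-eb)
        have h10 : (1 - w i) ^ 2 * W i * (X - w i - ηb) * D ≤ s * (w i * (W0 * ηb)) * D := by
          have e1 : (1 - w i) ^ 2 * W i * (X - w i - ηb) * D =
              w i * ((1 - w i) ^ 2 * (w i - y) * ((X - w i - ηb) * D)) := by
            simp only [hW]; ring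
          have e2 : s * (w i * (W0 * ηb)) * D = w i * (s * W0 * (ηb * D)) := by ring
          rw [e1, e2, hηbD, hW0']
          refine mul_le_mul_of_nonneg_left (h9.trans (le_of_eq ?_)) (h.nn i)
          ring
        have h11 : (1 - w i) ^ 2 * W i * (X - w i - ηb) ≤ s * (w i * (W0 * ηb)) :=
          le_of_mul_le_mul_right h10 hDpos
        have h12 : s * (s * (a i * (X - w i - ηb))) ≤ s * (w i * (W0 * ηb)) := by
          refine le_trans (le_of_eq ?_) (h7.trans h11)
          ring
        exact le_of_mul_le_mul_left h12 hspos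
    have hsum : s * ∑ i ∈ univ.erase t, a i * (σ i - ηb) ≤ s * (W0 * ηb) := by
      rw [mul_sum]
      refine (sum_le_sum fun i hi => key i (mem_erase.1 hi).1).trans (le_of_eq ?_)
      rw [← sum_mul, sum_erase_w h t]
    have hsum' := le_of_mul_le_mul_left hsum hspos
    have e1 : S - ηb * A = a t * (σ t - ηb) + ∑ i ∈ univ.erase t, a i * (σ i - ηb) := by
      rw [add_sum_erase univ (fun i => a i * (σ i - ηb)) (mem_univ t), hS, hA, mul_sum,
        ← sum_sub_distrib]
      exact sum_congr rfl fun i _ => by ring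
    rw [hσt, hat] at e1
    have e2 : η * A ≤ ηb * A := by rw [← hSη]; linarith
    exact le_of_mul_le_mul_right e2 hApos
  -- consequences for eta
  have hηX : s * η ≤ X * (s - y) := by
    have e1 : s * ηb * D ≤ X * (s - y) * D := by
      have : s * ηb * D = X * (s - y) * (s * (X - y)) := by
        rw [show s * ηb * D = s * (ηb * D) by ring, hηbD]; ring
      rw [this]
      refine mul_le_mul_of_nonneg_left ?_ (mul_nonneg hXpos.le (sub_nonneg.2 hys.le))
      rw [hD]
      linarith [mul_nonneg hXpos.le (sub_nonneg.2 hys.le)]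
    have e2 := le_of_mul_le_mul_right e1 hDpos
    exact (mul_le_mul_of_nonneg_left step0 hspos.le).trans e2
  have hηd : 2 * η ≤ X - y := by
    have e1 : 2 * ηb * D ≤ (X - y) * D := by
      have : 2 * ηb * D = (X - y) * (2 * (X * (s - y))) := by
        rw [show 2 * ηb * D = 2 * (ηb * D) by ring, hηbD]; ring
      rw [this]
      refine mul_le_mul_of_nonneg_left ?_ hd.le
      rw [hD]
      have : y * s ≤ y * X := mul_le_mul_of_nonneg_left (by rw [hX1] at hB ⊢; linarith [h.hy]) h.hy.le
      linarith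
    have e2 := le_of_mul_le_mul_right e1 hDpos
    linarith
  have hηW : ∀ i, i ≠ t → η * (ε * (1 - w i)) ≤ s * W0 := by
    intro i hi
    have e0 : ε * (1 - w i) ≤ ε * (1 - y) :=
      mul_le_mul_of_nonneg_left (by linarith [h.lt i]) hεpos.le
    have e00 : 0 ≤ ε * (1 - y) := (mul_nonneg hεpos.le (h1w i hi)).trans e0
    refine (mul_le_mul_of_nonneg_left e0 hη0).trans ?_
    refine (mul_le_mul_of_nonneg_right step0 e00).trans ?_
    have e1 : ηb * (ε * (1 - y)) * D ≤ s * W0 * D := by
      rw [show ηb * (ε * (1 - y)) * D = (ηb * D) * (ε * (1 - y)) by ring, hηbD, hW0', hD, hε]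
      have e3 := polyc2 h.hy.le hys.le hX1 hB
      have e4 := mul_le_mul_of_nonneg_left e3 (mul_nonneg hXpos.le hd.le)
      linarith
    exact le_of_mul_le_mul_right e1 hDpos
  -- step 2
  have step2 : 0 ≤ (W' - η * ε) * C + (1 + X - η) * Ts := by
    have hC' : C = W0 + ∑ i ∈ univ.erase t, c i := by
      rw [hC, ← add_sum_erase univ c (mem_univ t), hct]
    have hTs' : Ts = ∑ i ∈ univ.erase t, c i * σ i := by
      rw [hTs, ← add_sum_erase univ (fun i => c i * σ i) (mem_univ t), hσt, mul_zero, zero_add]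
    have hηW0 : η * W0 = ∑ i ∈ univ.erase t, a i * (σ i - η) := by
      have e1 : S - η * A = a t * (σ t - η) + ∑ i ∈ univ.erase t, a i * (σ i - η) := by
        rw [add_sum_erase univ (fun i => a i * (σ i - η)) (mem_univ t), hS, hA, mul_sum,
          ← sum_sub_distrib]
        exact sum_congr rfl fun i _ => by ring
      rw [hσt, hat] at e1
      linarith
    have e2 : (W' - η * ε) * C + (1 + X - η) * Ts = ∑ i ∈ univ.erase t,
        (W0 * W i + c i * (W' - η * ε) + (1 + X - η) * (c i * σ i) - ε * (a i * (σ i - η))) := by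
      rw [sum_sub_distrib, sum_add_distrib, sum_add_distrib, ← mul_sum, ← sum_mul, ← mul_sum,
        ← mul_sum, ← hηW0, ← hTs', ← hW', hC']
      ring
    rw [e2]
    refine sum_nonneg fun i hi => ?_
    obtain ⟨hi, -⟩ := mem_erase.1 hi
    obtain ⟨h1, h2⟩ := hwi i hi
    have hW'0 : 0 ≤ W' := sum_nonneg fun j _ => (hWpos j).le
    have b1 : c i * (η * ε) ≤ W0 * W i := by
      have e3 : s * (c i * (η * ε)) ≤ s * (W0 * W i) := by
        have e4 := mul_le_mul_of_nonneg_right (hc1 i) (mul_nonneg hη0 hεpos.le)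
        have e5 := mul_le_mul_of_nonneg_left (hηW i hi) (hWpos i).le
        linarith
      exact le_of_mul_le_mul_left e3 hspos
    have b2 : 0 ≤ c i * W' := mul_nonneg (hc0 i) hW'0
    have b3 : 0 ≤ s * (1 + X - η) - ε * (1 - w i) := by
      have : s * (1 + X - η) - ε * (1 - w i) ≥ s * (1 + X) - X * (s - y) - (y + s) * (1 - w i) := by
        rw [hε]; linarith
      refine le_trans ?_ this
      have e3 : s * (1 + X) - X * (s - y) - (y + s) * (1 - w i) = w i * (y + s) - y * s := by
        rw [hX1]; ring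
      rw [e3]
      linarith [mul_nonneg h.hy.le (h.nn i), mul_le_mul_of_nonneg_right h1.le hspos.le]
    rcases le_total (σ i) η with h3 | h3
    · have b4 : 0 ≤ ε * (a i * (η - σ i)) :=
        mul_nonneg hεpos.le (mul_nonneg (ha0 i) (sub_nonneg.2 h3))
      have b5 : 0 ≤ (1 + X - η) * (c i * σ i) := by
        refine mul_nonneg ?_ (mul_nonneg (hc0 i) (hσ0 i))
        linarith
      linarith
    · have b4 : s * (ε * (a i * (σ i - η))) ≤ ε * ((1 - w i) * c i * (σ i - η)) := by
        have := mul_le_mul_of_nonneg_left (mul_le_mul_of_nonneg_right (ha1 i) (sub_nonneg.2 h3))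
          hεpos.le
        linarith
      have b5 : 0 ≤ (s * (1 + X - η) - ε * (1 - w i)) * (c i * (σ i - η)) :=
        mul_nonneg b3 (mul_nonneg (hc0 i) (sub_nonneg.2 h3))
      have b6 : 0 ≤ s * (1 + X - η) * (c i * η) := by
        refine mul_nonneg (mul_nonneg hspos.le ?_) (mul_nonneg (hc0 i) hη0)
        linarith
      have b7 : s * 0 ≤ s * (W0 * W i + c i * (W' - η * ε) + (1 + X - η) * (c i * σ i) -
          ε * (a i * (σ i - η))) := by
        have b8 := mul_le_mul_of_nonneg_left b1 hspos.le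
        have b9 := mul_nonneg hspos.le b2
        linarith
      exact le_of_mul_le_mul_left b7 hspos
  -- step 1
  have step1 : ∀ i, 0 ≤ g i * (R i - η * c i) := by
    intro i
    by_cases hi : i = t
    · rw [hi, hgt, zero_mul]
    obtain ⟨h1, h2⟩ := hwi i hi
    refine mul_nonneg (hg0 i) ?_
    have hK : ε * W0 + c i * (1 + y - w i) ≤ Kp := by
      have e1 := sum_le_sum_of_subset_of_nonneg (subset_univ ({t, i} : Finset (Fin q)))
        (f := fun j => c j * (1 + y - w j)) (fun j _ _ => mul_nonneg (hc0 j) (by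
          have := h1w j
          by_cases hj : j = t
          · rw [hj, ← hX, hX1]; linarith [h.hy]
          · linarith [this hj, h.hy]))
      rw [sum_pair (Ne.symm hi), hct] at e1
      refine le_trans (le_of_eq ?_) e1
      rw [← hX, hX1, hε]; ring
    have hW'i : W i ≤ W' := single_le_sum (f := W) (fun j _ => (hWpos j).le)
      (mem_erase.2 ⟨hi, mem_univ i⟩)
    have hk' : 0 ≤ (w i - y) * k i := mul_nonneg (sub_nonneg.2 h1.le) (hk0 i)
    have hci : c i = w i * ((w i - y) * k i) := by simp only [hc]; ring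
    have hkk : s * ((w i - y) * k i) ≤ (1 - w i) * (w i - y) := by
      have := mul_le_mul_of_nonneg_left (hk i) (sub_nonneg.2 h1.le)
      linarith
    -- lower bound of R i - eta c i
    have e1 : ε * W0 - ((w i - y) * k i) * ((1 + X) * ε - (2 + X - η) * w i) ≤
        R i - η * c i := by
      have e2 := mul_le_mul_of_nonneg_left hW'i hk'
      simp only [hR]
      have e3 : W i = w i * (w i - y) := rfl
      rw [hci] at hK ⊢
      rw [e3] at e2
      linarith
    refine le_trans ?_ e1
    rcases le_total ((1 + X) * ε - (2 + X - η) * w i) 0 with h4 | h4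
    · have := mul_nonneg hk' (neg_nonneg.2 h4)
      have := mul_pos hεpos hW0pos
      linarith
    · have e4 : s * (((w i - y) * k i) * ((1 + X) * ε - (2 + X - η) * w i)) ≤
          s * (ε * W0) := by
        have e5 := mul_le_mul_of_nonneg_right hkk h4
        have e6 : (1 + X) * ε - (2 + X - η) * w i ≤
            (1 + X) * ε - (2 + X) * w i + (X - y) / 2 * w i := by
          linarith [mul_le_mul_of_nonneg_right hηd (h.nn i)]
        have e7 := mul_le_mul_of_nonneg_left e6 (mul_nonneg (h1w i hi) (sub_nonneg.2 h1.le))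
        have e8 := polyC h.hy.le h1.le h2 hX1 hB
        rw [hW0', hε] at *
        linarith
      have := le_of_mul_le_mul_left e4 hspos
      linarith
  -- assembly
  have f1 : ∑ i, w i * (w i - y) * th i * z i = X * A - S := by
    rw [hA, hS, mul_sum, ← sum_sub_distrib]
    exact sum_congr rfl fun i _ => by simp only [ha, hσ]; ring
  have f2 : ∑ i, z i = 1 + ∑ i, g i := by
    rw [← h.one, ← sum_add_distrib]
    exact sum_congr rfl fun i _ => by simp only [hg]; ring
  have f3 : ∑ i, (w i - y) * k i * z i = C + ∑ i, (w i - y) * k i * g i := by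
    rw [hC, ← sum_add_distrib]
    exact sum_congr rfl fun i _ => by simp only [hc, hg]; ring
  have f4 : Kp = ε * C + Ts + ∑ i, c i * g i := by
    rw [hKp, hC, hTs, mul_sum, ← sum_add_distrib, ← sum_add_distrib]
    refine sum_congr rfl fun i _ => ?_
    simp only [hσ, hg, hε, hs]
    ring
  have f5 : ∑ i, g i * (R i - η * c i) = (∑ i, g i) * Kp -
      ((1 + X) * ε - W') * (∑ i, (w i - y) * k i * g i) + (1 + X - η) * ∑ i, c i * g i := by
    rw [sum_mul, mul_sum, mul_sum, ← sum_sub_distrib, ← sum_add_distrib]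
    refine sum_congr rfl fun i _ => ?_
    simp only [hR, hc]
    ring
  have f6 := sum_nonneg fun i (_ : i ∈ univ) => step1 i
  rw [f5] at f6
  have f7 : 0 ≤ A * ((W' - η * ε) * C + (1 + X - η) * Ts + ((∑ i, g i) * Kp -
      ((1 + X) * ε - W') * (∑ i, (w i - y) * k i * g i) + (1 + X - η) * ∑ i, c i * g i)) :=
    mul_nonneg hApos.le (add_nonneg step2 f6)
  rw [hP2, f1, f2, f3, hSη, ← sub_nonneg]
  refine le_trans f7 (le_of_eq ?_)
  have f10 : ∑ i, c i * g i = Kp - ε * C - Ts := by rw [f4]; ring
  rw [f10]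
  ring

end Pool.Agent.Helper20.SW
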