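import Pool.Agent.Helper20.SW.Two
import Pool.Agent.Helper4.SW.Asm2
import Pool.Agent.Helper31.SW.Tau

/-!
The parts (T) and (G, with a leg of odd size) of the final assembly.
-/

set_option autoImplicit false

namespace Pool.Agent.Helper20.SW

open Pool.Agent.Helper6.HL hiding X
open Finset Polynomial
open Pool.Agent.Helper4.SW

variable {q : ℕ} {w : Fin q → ℝ} {y : ℝ}

theorem t2_eq' (h : Hyp w y) (N : ℕ) : l w y N * Pw w y 1 - Pw w y (1 + N) =
    E w (fun i => (1 + y - w i) * ((w i - y) * ch w y N i)) := by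
  rw [Helper4.SW.t2_eq]
  congr 1
  funext i
  rw [psi_one h]
  rfl

/-- (F1) for two legs, one of them of odd size, in the form of the assembly -/
theorem F1at_two_aux (h : Hyp w y) {a : ℕ} (b : ℕ) (ha : Even a) {G : Fin q → ℝ}
    (hG : Cone w G) : F1at w y [a, b] G := by
  obtain ⟨t, ht⟩ := Helper4.SW.exists_top h
  have f1 := F1_two (b := b) h ht ha hG
  rw [F1at]
  have n1 : [a, b].sum + [a, b].length + 1 = a + b + 3 := by
    simp only [List.sum_cons, List.length_cons, List.sum_nil, List.length_nil]; ring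
  have n2 : [a, b].sum + [a, b].length + 2 = 1 + (a + b + 3) := by
    simp only [List.sum_cons, List.length_cons, List.sum_nil, List.length_nil]; ring
  rw [n1, n2, sa_two]
  have e1 : E w (fun i => G i * sf w y [a, b] i) = l w y (a + b + 3) * E w G -
      E w (fun i => G i * kap w y (a + b + 3) i) +
      y * E w (fun i => (w i - y) * ch w y (a + 1) i * ch w y (b + 1) i * (w i * G i)) := by
    have e : (fun i => G i * sf w y [a, b] i) = fun i => (l w y (a + b + 3) * G i -
        G i * kap w y (a + b + 3) i) +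
        y * ((w i - y) * ch w y (a + 1) i * ch w y (b + 1) i * (w i * G i)) := by
      funext i; rw [sf_two, hat_psi_kap]; ring
    rw [e, E_add', E_sub, E_const_mul, E_const_mul]
  have e2 : E w (fun i => G i * kap w y (a + b + 3) i) =
      E w (fun i => G i * ((w i - y) * ch w y (a + b + 3) i)) := rfl
  have e3 := t2_eq' h (a + b + 3)
  rw [e1, e2]
  set T := E w (fun i => (1 + y - w i) * ((w i - y) * ch w y (a + b + 3) i))
  set M := E w (fun i => G i * ((w i - y) * ch w y (a + b + 3) i))
  set V := E w (fun i => (w i - y) * ch w y (a + 1) i * ch w y (b + 1) i * (w i * G i))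
  set H := E w (fun i => (w i - y) * ch w y (a + 1) i * ch w y (b + 1) i)
  have e4 : (l w y (a + b + 3) - y * H) * Pw w y 1 - Pw w y (1 + (a + b + 3)) =
      T - y * H * Pw w y 1 := by rw [← e3]; ring
  rw [e4, e3]
  have := mul_nonneg h.hy.le (sub_nonneg.2 f1)
  linarith

theorem st_perm {J J' : List ℕ} (hp : J.Perm J') : Sim w y (R J) (R J') := by
  induction hp with
  | nil => exact Sim.refl _
  | cons x _ ih => exact Sim.cons (Sim.refl _) ih
  | swap x z l => exact Sim.swap _ _ _
  | trans _ _ h1 h2 => exact h1.trans h2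

theorem sa_perm {J J' : List ℕ} (hp : J.Perm J') : sa w y J = sa w y J' := by
  rw [sa, sa, (st_perm (w := w) (y := y) hp).2.2.2]

theorem sf_perm {J J' : List ℕ} (hp : J.Perm J') : sf w y J = sf w y J' := by
  funext i
  rw [sf, sf, (st_perm (w := w) (y := y) hp).2.2.2]

theorem F1at_perm {J J' : List ℕ} (hp : J.Perm J') {G : Fin q → ℝ} (h : F1at w y J G) :
    F1at w y J' G := by
  rw [F1at] at h ⊢
  rw [← sa_perm hp, ← sf_perm hp, ← hp.sum_eq, ← hp.length_eq]
  exact h

theorem F1at_two (h : Hyp w y) {a b : ℕ} (hab : Even a ∨ Even b) {G : Fin q → ℝ}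
    (hG : Cone w G) : F1at w y [a, b] G := by
  rcases hab with ha | hb
  · exact F1at_two_aux h b ha hG
  · exact F1at_perm (List.Perm.swap _ _ _) (F1at_two_aux h a hb hG)

/-- spiders with a leg of odd size which are not bad are good -/
theorem goodG_odd (h : Hyp w y) (J : List ℕ) (hJ : 2 ≤ J.length) (hex : ∃ j ∈ J, Even j)
    (hb : ¬ Bad w y J) : Good w y (.cons (R J) .nil) := by
  obtain ⟨c, hc, hce⟩ := hex
  obtain ⟨K, hK⟩ : ∃ K, J.Perm (K ++ [c]) := by
    refine ⟨J.erase c, ?_⟩
    exact (List.perm_cons_erase hc).trans (List.perm_append_comm (l₁ := [c]) (l₂ := J.erase c))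
  match K, hK with
  | [], hK =>
    rw [hK.length_eq] at hJ
    simp at hJ
  | a :: K, hK =>
    refine Good.sim (Sim.cons (st_perm hK.symm) (Sim.refl _)) ?_
    refine good_of_two h a c K ?_ fun G hG => F1at_two h (Or.inr hce) hG
    rw [Bad, not_lt, sa_perm hK, hK.sum_eq, hK.length_eq] at hb
    exact hb

/-- (T) -/
theorem notBadTwo_aux (h : Hyp w y) {a : ℕ} (b : ℕ) (ha : Even a) : ¬ Bad w y [a, b] := by
  obtain ⟨t, ht⟩ := Helper4.SW.exists_top h
  have f0 := F0_two (b := b) h ht ha
  have n2 : [a, b].sum + [a, b].length + 2 = 1 + (a + b + 3) := by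
    simp only [List.sum_cons, List.length_cons, List.sum_nil, List.length_nil]; ring
  rw [Bad, not_lt, n2, sa_two]
  rw [← t2_eq' h] at f0
  linarith

theorem l_mul_le (h : Hyp w y) (a b : ℕ) (ha : Odd a) (hb : Odd b) :
    l w y (a + 1) * l w y (b + 1) ≤ l w y a * l w y (b + 2) := by
  obtain ⟨lam, hlam⟩ := Helper31.SW.exists_perA h
  have h1 := (Helper31.SW.r_lim h hlam a).2 ha
  have h2 := (Helper31.SW.r_lim h hlam (b + 1)).1 hb.add_one
  have la := l_pos h a
  have lb := l_pos h (b + 1)
  rw [Helper31.SW.r, div_le_iff₀ la] at h1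
  rw [Helper31.SW.r, le_div_iff₀ lb] at h2
  have h3 := mul_le_mul_of_nonneg_right h1 lb.le
  have h4 := mul_le_mul_of_nonneg_left h2 la.le
  rw [show b + 1 + 1 = b + 2 by ring] at h4
  linarith

theorem notBadTwo (h : Hyp w y) : NotBadTwo w y := by
  intro a b
  rcases Nat.even_or_odd a with ha | ha
  · exact notBadTwo_aux h b ha
  rcases Nat.even_or_odd b with hb | hb
  · have := notBadTwo_aux h a hb
    rw [Bad] at this ⊢
    rw [sa_perm (List.Perm.swap a b [])] at this
    simp only [List.sum_cons, List.length_cons, List.sum_nil, List.length_nil] at this ⊢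
    rwa [show b + (a + 0) = a + (b + 0) by ring] at this
  · -- both of even size
    obtain ⟨a', rfl⟩ : ∃ a', a = a' + 1 := ⟨a - 1, by have := ha.pos; omega⟩
    have ha' : Even a' := by
      rcases Nat.even_or_odd a' with h1 | h1
      · exact h1
      · exact absurd ha (Nat.not_odd_iff_even.2 h1.add_one)
    have h1 := notBadTwo_aux h (b + 1) ha'
    have h2 := (merge_id w y (a' + 1 + 1) (b + 1)).2
    have h3 := (merge_id w y (a' + 1) (b + 1 + 1)).2
    have h4 := l_mul_le h (a' + 1) b ha hb
    rw [Bad, not_lt, sa_two] at h1 ⊢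
    simp only [List.sum_cons, List.length_cons, List.sum_nil, List.length_nil] at h1 ⊢
    rw [show a' + (b + 1 + 0) + (0 + 1 + 1) + 2 = a' + b + 5 by ring,
      show a' + (b + 1) + 3 = a' + b + 4 by ring] at h1
    rw [show a' + 1 + (b + 0) + (0 + 1 + 1) + 2 = a' + b + 5 by ring,
      show a' + 1 + b + 3 = a' + b + 4 by ring]
    rw [show a' + 1 + 1 + (b + 1) = a' + 1 + (b + 1 + 1) by ring] at h2
    rw [show b + 2 = b + 1 + 1 by ring] at h4
    have h5 := mul_le_mul_of_nonneg_left
      (show E w (fun k => (w k - y) * ch w y (a' + 1 + 1) k * ch w y (b + 1) k) ≤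
        E w (fun k => (w k - y) * ch w y (a' + 1) k * ch w y (b + 1 + 1) k) by linarith)
      (mul_nonneg h.hy.le (Helper4.SW.Pw_pos h 1).le)
    linarith

end Pool.Agent.Helper20.SW
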