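import Mathlib

/-!
# Project SW: an antichain of tournaments

`T_j` has `j + 5` blocks; the first and the last block consist of three vertices which form a
cycle, the other blocks of one vertex. There is an arc from the block `b` to the block `b + 1` and
from the block `b` to the blocks `c` with `c + 2 ≤ b`.
-/

set_option autoImplicit false

namespace Pool.Agent.Helper20.SW

/-- The block of the vertex `x` of `T_j`. -/
def tblk (j x : ℕ) : ℕ := if x ≤ 2 then 0 else if x ≤ j + 5 then x - 2 else j + 4

/-- The number of vertices of `T_j`. -/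
def tsize (j : ℕ) : ℕ := j + 9

/-- The arcs of `T_j`. -/
def tarc (j x y : ℕ) : Prop :=
  x < tsize j ∧ y < tsize j ∧
    ((tblk j x = tblk j y ∧ (y = x + 1 ∨ x = y + 2)) ∨ tblk j y = tblk j x + 1 ∨
      tblk j y + 2 ≤ tblk j x)

instance (j x y : ℕ) : Decidable (tarc j x y) := by unfold tarc; infer_instance

/-- The relation `r` has a copy of `T_j`. -/
def Copy {α : Type*} (j : ℕ) (r : α → α → Prop) : Prop :=
  ∃ f : ℕ → α, ∀ x y, tarc j x y → r (f x) (f y)

theorem tarc_irrefl (j x : ℕ) : ¬ tarc j x x := by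
  unfold tarc
  omega

theorem tarc_asymm {j x y : ℕ} (h : tarc j x y) : ¬ tarc j y x := by
  unfold tarc at *
  omega

theorem tarc_total {j x y : ℕ} (hx : x < tsize j) (hy : y < tsize j) (h : x ≠ y) :
    tarc j x y ∨ tarc j y x := by
  unfold tarc tsize tblk at *
  split_ifs <;> omega

theorem tarc.lt_left {j x y : ℕ} (h : tarc j x y) : x < tsize j := h.1

theorem tarc.lt_right {j x y : ℕ} (h : tarc j x y) : y < tsize j := h.2.1

/-- `T_j` is strongly connected: a nonempty set of vertices which contains all predecessors of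
its elements contains all vertices. -/
theorem tarc_strong {j : ℕ} (S : Set ℕ) {a : ℕ} (ha : a ∈ S) (haj : a < tsize j)
    (hS : ∀ x y, tarc j x y → y ∈ S → x ∈ S) (x : ℕ) (hx : x < tsize j) : x ∈ S := by
  have hz : j + 8 ∈ S := by
    have h4 : j + 4 ∈ S → j + 8 ∈ S := by
      apply hS
      unfold tarc tsize tblk
      split_ifs <;> omega
    have h5 : j + 5 ∈ S → j + 4 ∈ S := by
      apply hS
      unfold tarc tsize tblk
      split_ifs <;> omega
    by_cases h1 : a ≤ j + 4
    · refine hS _ a ?_ ha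
      unfold tarc tsize tblk
      split_ifs <;> omega
    · by_cases h2 : a = j + 5
      · exact h4 (h5 (h2 ▸ ha))
      · refine h4 (h5 (hS _ a ?_ ha))
        unfold tarc tsize tblk at *
        split_ifs <;> omega
  have hdown : ∀ k, k ≤ j + 2 → j + 5 - k ∈ S := by
    intro k
    induction k with
    | zero =>
      intro _
      refine hS _ (j + 8) ?_ hz
      unfold tarc tsize tblk
      split_ifs <;> omega
    | succ k ih =>
      intro hk
      refine hS _ (j + 5 - k) ?_ (ih (by omega))
      unfold tarc tsize tblk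
      split_ifs <;> omega
  have h3 : (3 : ℕ) ∈ S := by
    have := hdown (j + 2) le_rfl
    rwa [show j + 5 - (j + 2) = 3 by omega] at this
  unfold tsize at hx
  by_cases h1 : x ≤ 2
  · refine hS _ 3 ?_ h3
    unfold tarc tsize tblk
    split_ifs <;> omega
  · by_cases h2 : x ≤ j + 5
    · have := hdown (j + 5 - x) (by omega)
      rwa [show j + 5 - (j + 5 - x) = x by omega] at this
    · refine hS _ 3 ?_ h3
      unfold tarc tsize tblk
      split_ifs <;> omega

/-- `T_j` has no twins: two vertices are distinguished by a third one. -/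
theorem tarc_twin {j x y : ℕ} (hxy : tarc j x y) :
    ∃ z, (tarc j x z ∧ tarc j z y) ∨ (tarc j z x ∧ tarc j y z) := by
  obtain ⟨hx, hy, h⟩ := hxy
  unfold tsize at hx hy
  rcases h with ⟨h1, h2⟩ | h1 | h1
  · by_cases h3 : x ≤ 2
    · refine ⟨3 - x - y, Or.inr ?_⟩
      unfold tarc tsize tblk at *
      split_ifs at * <;> omega
    · refine ⟨3 * j + 21 - x - y, Or.inr ?_⟩
      unfold tarc tsize tblk at *
      split_ifs at * <;> omega
  · by_cases h3 : tblk j x + 2 ≤ j + 3
    · refine ⟨tblk j x + 4, Or.inr ?_⟩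
      unfold tarc tsize tblk at *
      split_ifs at * <;> omega
    · by_cases h4 : tblk j x + 2 = j + 4
      · refine ⟨j + 6, Or.inr ?_⟩
        unfold tarc tsize tblk at *
        split_ifs at * <;> omega
      · refine ⟨if y = j + 6 then j + 8 else y - 1, Or.inl ?_⟩
        unfold tarc tsize tblk at *
        split_ifs at * <;> omega
  · by_cases h3 : tblk j x = tblk j y + 2
    · refine ⟨tblk j y + 3, Or.inr ?_⟩
      unfold tarc tsize tblk at *
      split_ifs at * <;> omega
    · by_cases h4 : tblk j y + 4 ≤ tblk j x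
      · refine ⟨tblk j y + 4, Or.inl ?_⟩
        unfold tarc tsize tblk at *
        split_ifs at * <;> omega
      · by_cases h5 : y ≤ 2
        · refine ⟨if y = 0 then 2 else y - 1, Or.inl ?_⟩
          unfold tarc tsize tblk at *
          split_ifs at * <;> omega
        · refine ⟨if y = 3 then 0 else y - 1, Or.inl ?_⟩
          unfold tarc tsize tblk at *
          split_ifs at * <;> omega

/-- No four vertices are in one block. -/
private theorem four_blk {i a b c d : ℕ} (ha : a < tsize i) (hb : b < tsize i) (hc : c < tsize i)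
    (hd : d < tsize i) (h1 : tblk i a = tblk i b) (h2 : tblk i a = tblk i c)
    (h3 : tblk i a = tblk i d) (n1 : a ≠ b) (n2 : a ≠ c) (n3 : a ≠ d) (n4 : b ≠ c) (n5 : b ≠ d)
    (n6 : c ≠ d) : False := by
  unfold tsize tblk at *
  split_ifs at * <;> omega

private theorem blk_le {i x : ℕ} : tblk i x ≤ i + 4 := by
  unfold tblk
  split_ifs <;> omega

private theorem triple_blk {i a b c : ℕ}
    (h1 : tblk i a = tblk i b) (h2 : tblk i a = tblk i c)
    (n3 : b ≠ c) : tblk i a = 0 ∨ tblk i a = i + 4 := by
  unfold tblk at *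
  split_ifs at * <;> omega

private theorem eq_of_blk {i x b : ℕ} (h : tblk i x = b) (h1 : 1 ≤ b)
    (h2 : b ≤ i + 3) : x = b + 2 := by
  unfold tblk at h
  split_ifs at h <;> omega

/-- The cycles of length three. -/
private theorem cyc3 {i p q z : ℕ} (h1 : tarc i p q) (h2 : tarc i q z) (h3 : tarc i z p) :
    (tblk i p = tblk i q ∧ tblk i z = tblk i q) ∨
      (tblk i q = tblk i p + 1 ∧ (tblk i z = tblk i q + 1 ∨ tblk i z + 1 = tblk i p)) ∨
      (tblk i p = tblk i q + 2 ∧ tblk i z = tblk i q + 1) := by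
  obtain ⟨-, -, h1⟩ := h1
  obtain ⟨-, -, h2⟩ := h2
  obtain ⟨-, -, h3⟩ := h3
  omega

private theorem start {i P Q A B C D : ℕ} (h0 : tarc i A B) (h1 : tarc i B C) (h2 : tarc i C A)
    (h3 : tarc i A P) (h4 : tarc i B P) (h5 : tarc i C P) (h6 : tarc i P Q) (h7 : tarc i Q A)
    (h8 : tarc i Q B) (h9 : tarc i Q C) (h10 : tarc i D A) (h11 : tarc i D B) (h12 : tarc i D C)
    (h13 : tarc i Q D) (h14 : tarc i D P) : P = 3 ∧ Q = 4 ∧ D = 5 := by
  have ne : ∀ {x y : ℕ}, tarc i x y → x ≠ y := by
    rintro x y h rfl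
    exact tarc_irrefl _ _ h
  have c1 := cyc3 h6 h7 h3
  have c2 := cyc3 h6 h8 h4
  have c3 := cyc3 h6 h9 h5
  have c4 := cyc3 h6 h13 h14
  rcases c1 with c1 | c1 | c1
  · exfalso
    rcases c2 with c2 | c2 | c2 <;> [skip; omega; omega]
    exact four_blk h6.1 h6.2.1 h0.1 h1.1 c1.1 (by omega) (by omega) (ne h6) (ne h3).symm
      (ne h4).symm (ne h7) (ne h8) (ne h0)
  · have d2 : tblk i B = tblk i Q + 1 ∨ tblk i B + 1 = tblk i P := by omega
    have d3 : tblk i C = tblk i Q + 1 ∨ tblk i C + 1 = tblk i P := by omega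
    have d4 : tblk i D = tblk i Q + 1 ∨ tblk i D + 1 = tblk i P := by omega
    have e1 : tblk i A = tblk i B ∧ tblk i A = tblk i C := by
      obtain ⟨-, -, h0⟩ := h0
      obtain ⟨-, -, h1⟩ := h1
      obtain ⟨-, -, h2⟩ := h2
      omega
    have e2 : tblk i D ≠ tblk i A := fun h =>
      four_blk h0.1 h0.2.1 h1.2.1 h10.1 e1.1 e1.2 h.symm (ne h0) (ne h2).symm (ne h10).symm (ne h1)
        (ne h11).symm (ne h12).symm
    have e3 : tblk i A + 1 = tblk i P ∧ tblk i D = tblk i Q + 1 := by
      obtain ⟨-, -, h10⟩ := h10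
      omega
    have e4 : tblk i A = 0 := by
      rcases triple_blk e1.1 e1.2 (ne h1) with h | h
      · exact h
      · have := blk_le (i := i) (x := P)
        omega
    exact ⟨eq_of_blk (i := i) (b := 1) (by omega) (by omega) (by omega),
      eq_of_blk (i := i) (b := 2) (by omega) (by omega) (by omega),
      eq_of_blk (i := i) (b := 3) (by omega) (by omega) (by omega)⟩
  · exfalso
    exact four_blk h0.1 h0.2.1 h1.2.1 h10.1 (by omega) (by omega) (by omega) (ne h0) (ne h2).symm
      (ne h10).symm (ne h1) (ne h11).symm (ne h12).symm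

/-- The tournaments `T_j` are pairwise not embeddable. -/
theorem tarc_antichain {i j : ℕ} (f : ℕ → ℕ) (hf : ∀ x y, tarc j x y → tarc i (f x) (f y)) :
    j = i := by
  have inj : ∀ x y, x < tsize j → y < tsize j → x ≠ y → f x ≠ f y := by
    intro x y hx hy hxy h
    rcases tarc_total hx hy hxy with h1 | h1
    · exact tarc_irrefl _ _ (h ▸ hf _ _ h1)
    · exact tarc_irrefl _ _ (h ▸ hf _ _ h1)
  have hlt : ∀ x, x < tsize j → f x < tsize i := by
    intro x hx
    by_cases h : x = 0
    · refine (hf x 1 ?_).1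
      subst h
      unfold tarc tsize tblk
      split_ifs <;> omega
    · rcases tarc_total hx (show 0 < tsize j by unfold tsize; omega) h with h1 | h1
      · exact (hf _ _ h1).1
      · exact (hf _ _ h1).2.1
  have hle : j ≤ i := by
    have h1 : (Finset.range (tsize j)).card ≤ (Finset.range (tsize i)).card := by
      refine Finset.card_le_card_of_injOn f (fun x hx => ?_) (fun x hx y hy h => ?_)
      · simp only [Finset.coe_range, Set.mem_Iio]
        exact hlt x (Finset.mem_range.1 hx)
      · by_contra hne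
        exact inj x y (Finset.mem_range.1 hx) (Finset.mem_range.1 hy) hne h
    simp only [Finset.card_range] at h1
    unfold tsize at h1
    omega
  by_contra hne
  have hlt' : j < i := lt_of_le_of_ne hle hne
  have ar : ∀ x y, x < tsize j → y < tsize j →
      ((tblk j x = tblk j y ∧ (y = x + 1 ∨ x = y + 2)) ∨ tblk j y = tblk j x + 1 ∨
      tblk j y + 2 ≤ tblk j x) → tarc i (f x) (f y) := fun x y h1 h2 h3 => hf x y ⟨h1, h2, h3⟩
  have hst : f 3 = 3 ∧ f 4 = 4 ∧ f 5 = 5 := by
    refine start (i := i) (A := f 0) (B := f 1) (C := f 2) ?_ ?_ ?_ ?_ ?_ ?_ ?_ ?_ ?_ ?_ ?_ ?_ ?_ ?_ ?_ <;>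
    · refine hf _ _ ?_
      unfold tarc tsize tblk
      split_ifs <;> omega
  have hstep : ∀ k, k ≤ j → f (k + 3) = k + 3 ∧ f (k + 4) = k + 4 ∧ f (k + 5) = k + 5 := by
    intro k
    induction k with
    | zero => exact fun _ => hst
    | succ k ih =>
      intro hk
      obtain ⟨g1, g2, g3⟩ := ih (by omega)
      refine ⟨by rw [show k + 1 + 3 = k + 4 by omega]; exact g2,
        by rw [show k + 1 + 4 = k + 5 by omega]; exact g3, ?_⟩
      rw [show k + 1 + 5 = k + 6 by omega]
      have t1 : tarc i (f (k + 5)) (f (k + 6)) := by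
        refine hf _ _ ?_
        unfold tarc tsize tblk
        split_ifs <;> omega
      have t2 : tarc i (f (k + 6)) (f (k + 4)) := by
        refine hf _ _ ?_
        unfold tarc tsize tblk
        split_ifs <;> omega
      have t3 : f (k + 6) ≠ f (k + 3) :=
        inj _ _ (by unfold tsize; omega) (by unfold tsize; omega) (by omega)
      rw [g3] at t1
      rw [g2] at t2
      rw [g1] at t3
      generalize f (k + 6) = z at *
      clear ih g1 g2 g3 hst hf inj hlt ar
      unfold tarc tsize tblk at t1 t2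
      split_ifs at * <;> omega
  obtain ⟨g1, g2, g3⟩ := hstep j le_rfl
  have t1 : tarc i (f (j + 5)) (f (j + 6)) := by
    refine hf _ _ ?_
    unfold tarc tsize tblk
    split_ifs <;> omega
  have t2 : tarc i (f (j + 6)) (f (j + 4)) := by
    refine hf _ _ ?_
    unfold tarc tsize tblk
    split_ifs <;> omega
  have t3 : f (j + 6) ≠ f (j + 3) :=
    inj _ _ (by unfold tsize; omega) (by unfold tsize; omega) (by omega)
  have t4 : tarc i (f (j + 5)) (f (j + 7)) := by
    refine hf _ _ ?_
    unfold tarc tsize tblk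
    split_ifs <;> omega
  have t5 : tarc i (f (j + 7)) (f (j + 4)) := by
    refine hf _ _ ?_
    unfold tarc tsize tblk
    split_ifs <;> omega
  have t6 : f (j + 7) ≠ f (j + 3) :=
    inj _ _ (by unfold tsize; omega) (by unfold tsize; omega) (by omega)
  have t7 : f (j + 6) ≠ f (j + 7) :=
    inj _ _ (by unfold tsize; omega) (by unfold tsize; omega) (by omega)
  rw [g3] at t1 t4
  rw [g2] at t2 t5
  rw [g1] at t3 t6
  have s1 : f (j + 6) = j + 6 := by
    generalize f (j + 6) = z at *
    clear hstep g1 g2 g3 hst hf inj hlt ar t4 t5 t6 t7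
    unfold tarc tsize tblk at t1 t2
    split_ifs at * <;> omega
  have s2 : f (j + 7) = j + 6 := by
    generalize f (j + 7) = z at *
    clear hstep g1 g2 g3 hst hf inj hlt ar t1 t2 t3 t7
    unfold tarc tsize tblk at t4 t5
    split_ifs at * <;> omega
  exact t7 (s1.trans s2.symm)

/-- A strict order has no copy of `T_j`. -/
theorem not_copy_of_trans {α : Type*} {r : α → α → Prop} (hr : ∀ x, ¬ r x x)
    (ht : ∀ x y z, r x y → r y z → r x z) (j : ℕ) : ¬ Copy j r := by
  rintro ⟨f, hf⟩
  have h1 : r (f 0) (f 1) := by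
    refine hf _ _ ?_
    unfold tarc tsize tblk
    split_ifs <;> omega
  have h2 : r (f 1) (f 2) := by
    refine hf _ _ ?_
    unfold tarc tsize tblk
    split_ifs <;> omega
  have h3 : r (f 2) (f 0) := by
    refine hf _ _ ?_
    unfold tarc tsize tblk
    split_ifs <;> omega
  exact hr _ (ht _ _ _ h1 (ht _ _ _ h2 h3))

/-- A copy in a relation whose arcs are between numbers below `m` needs enough vertices. -/
theorem Copy.tsize_le {j m : ℕ} {r : ℕ → ℕ → Prop} (hr : ∀ x, ¬ r x x)
    (hm : ∀ x y, r x y → x < m ∧ y < m) (h : Copy j r) : tsize j ≤ m := by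
  obtain ⟨f, hf⟩ := h
  have inj : ∀ x y, x < tsize j → y < tsize j → x ≠ y → f x ≠ f y := by
    intro x y hx hy hxy h
    rcases tarc_total hx hy hxy with h1 | h1
    · exact hr _ (h ▸ hf _ _ h1)
    · exact hr _ (h ▸ hf _ _ h1)
  have hlt : ∀ x, x < tsize j → f x < m := by
    intro x hx
    by_cases h : x = 0
    · refine (hm _ _ (hf x 1 ?_)).1
      subst h
      unfold tarc tsize tblk
      split_ifs <;> omega
    · rcases tarc_total hx (show 0 < tsize j by unfold tsize; omega) h with h1 | h1
      · exact (hm _ _ (hf _ _ h1)).1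
      · exact (hm _ _ (hf _ _ h1)).2
  have h1 : (Finset.range (tsize j)).card ≤ (Finset.range m).card := by
    refine Finset.card_le_card_of_injOn f (fun x hx => ?_) (fun x hx y hy h => ?_)
    · simp only [Finset.coe_range, Set.mem_Iio]
      exact hlt x (Finset.mem_range.1 hx)
    · by_contra hne
      exact inj x y (Finset.mem_range.1 hx) (Finset.mem_range.1 hy) hne h
  simpa only [Finset.card_range] using h1

end Pool.Agent.Helper20.SW
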