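import Pool.Agent.Helper20.SW.F0
import Pool.Agent.Helper4.SW.Good

/-!
GoodTwo for two legs which are not both of even length.
-/

set_option autoImplicit false

namespace Pool.Agent.Helper20.SW

open Pool.Agent.Helper6.HL hiding X
open Finset Polynomial
open Pool.Agent.Helper4.SW

variable {q : ℕ} {w : Fin q → ℝ} {y : ℝ}

theorem half_top (h : Hyp w y) {t : Fin q} (ht : Top w t) : 1 + y ≤ 2 * w t := by
  obtain ⟨i, hi⟩ := h.half
  have := ht i
  linarith

theorem exists_top (h : Hyp w y) : ∃ t, Top w t := by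
  have : Nonempty (Fin q) := ⟨⟨0, lt_of_lt_of_le two_pos h.two⟩⟩
  obtain ⟨t, ht⟩ := Finite.exists_max w
  exact ⟨t, ht⟩

/-- supermultiplicativity at the top -/
theorem ch_super (h : Hyp w y) {t : Fin q} (ht : Top w t) (n m : ℕ) :
    (∀ c, ch w y (m + 1) c * ch w y (n + 1) t ≤ ch w y (m + n + 1) c) ∧
      ∀ c, ch w y (m + 2) c * ch w y (n + 1) t ≤ ch w y (m + n + 2) c := by
  have hn : 0 ≤ ch w y (n + 1) t := (Cone.ch h.nn h.hy.le _).nn t
  have hle : ∀ c, ch w y (n + 1) t ≤ ch w y (n + 1) c := fun c =>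
    (Cone.ch h.nn h.hy.le _).anti c t (ht c)
  -- the common step
  have step : ∀ m, (∀ c, ch w y m c * ch w y (n + 1) t ≤ ch w y (m + n) c) →
      (∀ c, ch w y (m + 1) c * ch w y (n + 1) t ≤ ch w y (m + n + 1) c) →
      ∀ c, ch w y (m + 2) c * ch w y (n + 1) t ≤ ch w y (m + n + 2) c := by
    intro m h1 h2 c
    rw [ch_succ_succ, ch_succ_succ]
    simp only
    have a1 : E w (ch w y m) * ch w y (n + 1) t ≤ E w (ch w y (m + n)) := by
      rw [mul_comm, ← E_const_mul]
      exact E_mono h.nn fun i => by rw [mul_comm]; exact h1 i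
    have a2 : K' w (ch w y (m + 1)) c * ch w y (n + 1) t ≤ K' w (ch w y (m + n + 1)) c := by
      have e1 : K' w (ch w y (m + n + 1)) c - K' w (ch w y (m + 1)) c * ch w y (n + 1) t =
          K' w (ch w y (m + n + 1) - ch w y (n + 1) t • ch w y (m + 1)) c := by
        rw [map_sub, map_smul]
        simp only [Pi.sub_apply, Pi.smul_apply, smul_eq_mul]
        ring
      have e2 : 0 ≤ K' w (ch w y (m + n + 1) - ch w y (n + 1) t • ch w y (m + 1)) c :=
        K'_nonneg h.nn (fun i => by
          simp only [Pi.sub_apply, Pi.smul_apply, smul_eq_mul]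
          have := h2 i
          linarith) c
      linarith
    have a3 := mul_le_mul_of_nonneg_left a1 h.hy.le
    linarith
  induction m with
  | zero =>
    have h0 : ∀ c, ch w y 0 c * ch w y (n + 1) t ≤ ch w y (0 + n) c := fun c => by
      rw [ch_zero, zero_mul]; exact (Cone.ch h.nn h.hy.le _).nn c
    have h1 : ∀ c, ch w y (0 + 1) c * ch w y (n + 1) t ≤ ch w y (0 + n + 1) c := fun c => by
      rw [zero_add, ch_one, one_mul, zero_add]; exact hle c
    exact ⟨h1, step 0 h0 h1⟩
  | succ m ih =>
    refine ⟨fun c => ?_, ?_⟩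
    · have := ih.2 c
      rw [show m + 1 + n + 1 = m + n + 2 by ring]
      exact this
    · refine step (m + 1) (fun c => ?_) fun c => ?_
      · have := ih.1 c
        rw [show m + 1 + n = m + n + 1 by ring]
        exact this
      · have := ih.2 c
        rw [show m + 1 + n + 1 = m + n + 2 by ring]
        exact this

theorem ch_two (h : Hyp w y) (i : Fin q) : ch w y 2 i = 1 - w i := by
  have : l w y 1 = 1 := by rw [l_succ, psi_zero, L_def, hat_one, E_one h]
  rw [ch_succ, this, ch_one, mul_one]

theorem l_one (h : Hyp w y) : l w y 1 = 1 := by rw [l_succ, psi_zero, L_def, hat_one, E_one h]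

theorem psi_one (h : Hyp w y) (i : Fin q) : hat w (psi w y 1) i = 1 + y - w i := by
  rw [hat_psi, l_one h, ch_one]; ring

theorem l_two (h : Hyp w y) : l w y 2 = 1 + y - ∑ i, w i * w i := by
  rw [l_succ, L_def]
  have : E w (hat w (psi w y 1)) = E w (fun i => (1 + y) - w i) := by
    congr 1; funext i; exact psi_one h i
  rw [this, E_sub, E_const h]
  rfl

/-- `chi_2` at the top -/
theorem ch_three (h : Hyp w y) (t : Fin q) : ch w y 3 t =
    y + (1 - w t) - ∑ i ∈ univ.erase t, w i * w i := by
  rw [ch_succ, ch_two h, l_two h, ← add_sum_erase univ (fun i => w i * w i) (mem_univ t)]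
  ring

/-- weights of paths -/
theorem Pw_eq (k : ℕ) : Pw w y k = y * l w y k + l w y (k + 1) := by
  rw [Pw, W, l_succ]
  rfl

theorem Pw_one (h : Hyp w y) : Pw w y 1 = 1 + 2 * y - ∑ i, w i * w i := by
  rw [Pw_eq, l_one h, l_two h]; ring

theorem Pw_add (h : Hyp w y) (N : ℕ) : Pw w y (1 + N) = l w y N * Pw w y 1 -
    E w (fun i => (1 + y - w i) * ((w i - y) * ch w y N i)) := by
  rw [Pw_eq, Pw_one h, show 1 + N = N + 1 by ring, l_succ w y N, l_succ w y (N + 1), psi_succ,
    map_add, L_C h, L_def, L_def, hat_X_mul]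
  have e1 : E w (K' w (hat w (psi w y N))) = E w (fun i => (1 - w i) * hat w (psi w y N) i) := by
    have : E w (K' w (hat w (psi w y N))) = E w (fun i => K' w (hat w (psi w y N)) i * 1) := by
      congr 1; funext i; rw [mul_one]
    rw [this, E_K'_mul]
    congr 1
    funext i
    rw [K'_apply, E_one h]
    ring
  rw [e1]
  have e2 : (fun i => (1 - w i) * hat w (psi w y N) i) = fun i =>
      l w y N * (1 - w i) - (1 - w i) * ((w i - y) * ch w y N i) := by
    funext i; rw [hat_psi]; ring
  have e3 : hat w (psi w y N) = fun i => l w y N - (w i - y) * ch w y N i := by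
    funext i; rw [hat_psi]
  have e4 : (fun i => (1 + y - w i) * ((w i - y) * ch w y N i)) = fun i =>
      y * ((w i - y) * ch w y N i) + (1 - w i) * ((w i - y) * ch w y N i) := by
    funext i; ring
  have e5 : E w (fun i => 1 - w i) = 1 - ∑ i, w i * w i := by
    rw [E_sub, E_one h]; rfl
  rw [e2, e3, e4, E_sub, E_sub, E_add', E_const_mul, E_const_mul, E_const h, e5]
  ring

section F1

variable {t : Fin q} {a b : ℕ}

/-- the normalised functions satisfy the hypotheses of Lemma D -/
theorem norm_k (h : Hyp w y) (ht : Top w t) (n : ℕ) (i : Fin q) :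
    (1 - w t) * (ch w y (n + 1) i / ch w y (n + 1) t) ≤ 1 - w i := by
  have hp := ch_pos h n t
  rw [← mul_div_assoc, div_le_iff₀ hp]
  rcases n with _ | n
  · rw [zero_add, ch_one, mul_one, mul_one]
    linarith [ht i]
  · have h1 := (top_alt h ht n 1).1 i
    simp only [De, sg, pow_one] at h1
    rw [show 1 + n + 1 = n + 1 + 1 by ring, show (1 + 1 : ℕ) = 2 by rfl, ch_two h, ch_two h] at h1
    linarith

theorem norm_even (h : Hyp w y) (ht : Top w t) (ha : Even a) (m : ℕ) (i : Fin q) :
    ch w y (a + 1) i / ch w y (a + 1) t ≤ ch w y (a + m + 1) i / ch w y (a + m + 1) t := by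
  rw [div_le_div_iff₀ (ch_pos h a t) (ch_pos h (a + m) t)]
  have h1 := (top_alt h ht m a).1 i
  simp only [De, sg] at h1
  rw [ha.neg_one_pow] at h1
  linarith

theorem norm_th (h : Hyp w y) (ht : Top w t) (ha : Even a) (i : Fin q) :
    (1 - w t) * (ch w y (a + 1) i / ch w y (a + 1) t * (ch w y (b + 1) i / ch w y (b + 1) t)) ≤
      (1 - w i) * (ch w y (a + b + 3) i / ch w y (a + b + 3) t) := by
  have h1 := norm_k h ht b i
  have h2 := norm_even h ht ha (b + 2) i
  rw [show a + (b + 2) + 1 = a + b + 3 by ring] at h2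
  have h3 : 0 ≤ ch w y (a + 1) i / ch w y (a + 1) t :=
    div_nonneg (ch_pos h a i).le (ch_pos h a t).le
  have h4 : 0 ≤ 1 - w i := by
    have := ch_pos h 1 i
    rw [show (1 + 1 : ℕ) = 2 by rfl, ch_two h] at this
    exact this.le
  have h5 := mul_le_mul_of_nonneg_left h1 h3
  have h6 := mul_le_mul_of_nonneg_left h2 h4
  linarith

/-- (F1) for two legs -/
theorem F1_two (h : Hyp w y) (ht : Top w t) (ha : Even a) {G : Fin q → ℝ} (hG : Cone w G) :
    Pw w y 1 * E w (fun i => (w i - y) * ch w y (a + 1) i * ch w y (b + 1) i) *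
        E w (fun i => G i * ((w i - y) * ch w y (a + b + 3) i)) ≤
      E w (fun i => (1 + y - w i) * ((w i - y) * ch w y (a + b + 3) i)) *
        (E w (fun i => (w i - y) * ch w y (a + 1) i * ch w y (b + 1) i * (w i * G i)) +
          E w G * E w (fun i => (w i - y) * ch w y (a + 1) i * ch w y (b + 1) i)) := by
  rcases (hG.nn t).eq_or_lt with h0 | hGt
  · -- the zero context
    have hz : ∀ i, G i = 0 := fun i => by
      have h1 := hG.mono i t (ht i)
      rw [← h0, mul_zero] at h1
      have h2 := hG.nn i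
      have h3 := h.pos i
      nlinarith
    have hG0 : G = fun _ => 0 := funext hz
    subst hG0
    simp [E]
  have hf := ch_pos h a t
  have hg := ch_pos h b t
  have hK := ch_pos h (a + b + 2) t
  set F := ch w y (a + 1) t
  set Gb := ch w y (b + 1) t
  set Kt := ch w y (a + b + 3) t
  have hD := lemD h (half_top h ht) (k := fun i => ch w y (a + b + 3) i / Kt)
    (th := fun i => ch w y (a + 1) i / F * (ch w y (b + 1) i / Gb))
    (z := fun i => w i * G i / G t)
    (div_self hK.ne') (by rw [div_self hf.ne', div_self hg.ne', mul_one])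
    (by rw [mul_div_assoc, div_self hGt.ne', mul_one])
    (fun i => div_nonneg (ch_pos h (a + b + 2) i).le hK.le)
    (fun i => norm_k h ht (a + b + 2) i)
    (fun i => mul_nonneg (div_nonneg (ch_pos h a i).le hf.le) (div_nonneg (ch_pos h b i).le hg.le))
    (fun i => norm_th h ht ha i)
    (fun i => by
      rw [mul_div_assoc]
      refine le_mul_of_one_le_right (h.nn i) ?_
      rw [one_le_div hGt]
      exact hG.anti i t (ht i))
    (fun i => by
      rw [div_le_iff₀ hGt]
      exact hG.mono i t (ht i))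
  rw [Pw_one h]
  have e1 : ∑ i, w i * (w i - y) * (ch w y (a + 1) i / F * (ch w y (b + 1) i / Gb)) =
      E w (fun i => (w i - y) * ch w y (a + 1) i * ch w y (b + 1) i) / (F * Gb) := by
    rw [E, sum_div]
    exact sum_congr rfl fun i _ => by field_simp
  have e2 : ∑ i, (w i - y) * (ch w y (a + b + 3) i / Kt) * (w i * G i / G t) =
      E w (fun i => G i * ((w i - y) * ch w y (a + b + 3) i)) / (Kt * G t) := by
    rw [E, sum_div]
    exact sum_congr rfl fun i _ => by field_simp
  have e3 : ∑ i, w i * (w i - y) * (ch w y (a + b + 3) i / Kt) * (1 + y - w i) =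
      E w (fun i => (1 + y - w i) * ((w i - y) * ch w y (a + b + 3) i)) / Kt := by
    rw [E, sum_div]
    exact sum_congr rfl fun i _ => by field_simp
  have e4 : ∑ i, w i * (w i - y) * (ch w y (a + 1) i / F * (ch w y (b + 1) i / Gb)) *
      (w i * G i / G t) = E w (fun i => (w i - y) * ch w y (a + 1) i * ch w y (b + 1) i *
        (w i * G i)) / (F * Gb * G t) := by
    rw [E, sum_div]
    exact sum_congr rfl fun i _ => by field_simp
  have e5 : ∑ i, w i * G i / G t = E w G / G t := by
    rw [E, sum_div]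
  rw [e1, e2, e3, e4, e5] at hD
  set H := E w (fun i => (w i - y) * ch w y (a + 1) i * ch w y (b + 1) i)
  set M := E w (fun i => G i * ((w i - y) * ch w y (a + b + 3) i))
  set T := E w (fun i => (1 + y - w i) * ((w i - y) * ch w y (a + b + 3) i))
  set V := E w (fun i => (w i - y) * ch w y (a + 1) i * ch w y (b + 1) i * (w i * G i))
  have hp : 0 < Kt * (F * Gb * G t) := by positivity
  have f1 : (1 + 2 * y - ∑ i, w i * w i) * (H / (F * Gb)) * (M / (Kt * G t)) =
      (1 + 2 * y - ∑ i, w i * w i) * H * M / (Kt * (F * Gb * G t)) := by field_simp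
  have f2 : T / Kt * (V / (F * Gb * G t) + E w G / G t * (H / (F * Gb))) =
      T * (V + E w G * H) / (Kt * (F * Gb * G t)) := by field_simp
  rw [f1, f2, div_le_div_iff_of_pos_right hp] at hD
  exact hD

/-- (F0) for two legs -/
theorem F0_two (h : Hyp w y) (ht : Top w t) (ha : Even a) :
    Pw w y 1 * (y * E w (fun i => (w i - y) * ch w y (a + 1) i * ch w y (b + 1) i)) ≤
      E w (fun i => (1 + y - w i) * ((w i - y) * ch w y (a + b + 3) i)) := by
  have hf := ch_pos h a t
  have hg := ch_pos h b t
  have hK := ch_pos h (a + b + 2) t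
  have hsup : ch w y 3 t * (ch w y (a + 1) t * ch w y (b + 1) t) ≤ ch w y (a + b + 3) t := by
    have h1 := (ch_super h ht b (a + 2)).1 t
    have h2 := (ch_super h ht a 1).2 t
    rw [show a + 2 + b + 1 = a + b + 3 by ring] at h1
    rw [show (1 + 2 : ℕ) = 3 by rfl, show 1 + a + 2 = a + 2 + 1 by ring] at h2
    have h3 := mul_le_mul_of_nonneg_right h2 hg.le
    linarith
  set F := ch w y (a + 1) t
  set Gb := ch w y (b + 1) t
  set Kt := ch w y (a + b + 3) t
  have hD := lemF0 h (half_top h ht) (k := fun i => ch w y (a + b + 3) i / Kt)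
    (th := fun i => ch w y (a + 1) i / F * (ch w y (b + 1) i / Gb))
    (div_self hK.ne') (by rw [div_self hf.ne', div_self hg.ne', mul_one])
    (fun i => div_nonneg (ch_pos h (a + b + 2) i).le hK.le)
    (fun i => norm_k h ht (a + b + 2) i)
    (fun i => norm_th h ht ha i)
  rw [← ch_three h, ← Pw_one h] at hD
  have e1 : ∑ i, w i * (w i - y) * (ch w y (a + 1) i / F * (ch w y (b + 1) i / Gb)) =
      E w (fun i => (w i - y) * ch w y (a + 1) i * ch w y (b + 1) i) / (F * Gb) := by
    rw [E, sum_div]
    exact sum_congr rfl fun i _ => by field_simp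
  have e3 : ∑ i, w i * (w i - y) * (ch w y (a + b + 3) i / Kt) * (1 + y - w i) =
      E w (fun i => (1 + y - w i) * ((w i - y) * ch w y (a + b + 3) i)) / Kt := by
    rw [E, sum_div]
    exact sum_congr rfl fun i _ => by field_simp
  rw [e1, e3] at hD
  set H := E w (fun i => (w i - y) * ch w y (a + 1) i * ch w y (b + 1) i)
  set T := E w (fun i => (1 + y - w i) * ((w i - y) * ch w y (a + b + 3) i))
  have hwt : w t ≤ 1 := by
    have := ch_pos h 1 t
    rw [show (1 + 1 : ℕ) = 2 by rfl, ch_two h] at this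
    linarith
  have hT : 0 ≤ T := E_nonneg h.nn fun i => by
    have h2 := ch_pos h 1 i
    rw [show (1 + 1 : ℕ) = 2 by rfl, ch_two h] at h2
    have h3 := h.hy
    have h4 := h.lt i
    have h5 := ch_pos h (a + b + 2) i
    exact mul_nonneg (by linarith) (mul_nonneg (by linarith) h5.le)
  have hFG : 0 < F * Gb := mul_pos hf hg
  have h1 : Pw w y 1 * (y * H) ≤ ch w y 3 t * (F * Gb) * (T / Kt) := by
    have := mul_le_mul_of_nonneg_right hD hFG.le
    refine le_trans (le_of_eq ?_) (this.trans (le_of_eq ?_))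
    · field_simp
    · ring
  refine h1.trans ?_
  have h2 := mul_le_mul_of_nonneg_right hsup (div_nonneg hT hK.le)
  refine h2.trans (le_of_eq ?_)
  rw [mul_comm, div_mul_cancel₀ _ hK.ne']

end F1

end Pool.Agent.Helper20.SW
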